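import Mathlib

/-!
Homogeneous forms without common zero: every form of large degree is in the ideal, and every
form is a combination of products of monomials of bounded degree evaluated at the iterates.
-/

set_option autoImplicit false

namespace Pool.Agent.W238.Leh

open MvPolynomial

noncomputable section

variable {K : Type*} [Field K] {n : ℕ}

/-- the map given by a tuple of polynomials, on vectors with coordinates in an extension -/
def act {M : Type*} [Field M] [Algebra K M] (F : Fin n → MvPolynomial (Fin n) K)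
    (z : Fin n → M) : Fin n → M := fun i => aeval z (F i)

section hom

attribute [local instance] MvPolynomial.gradedAlgebra

lemma homComp_mul_right {p q : MvPolynomial (Fin n) K} {d m : ℕ} (hq : q.IsHomogeneous d)
    (h : d ≤ m) :
    homogeneousComponent m (p * q) = homogeneousComponent (m - d) p * q := by
  have h1 := DirectSum.coe_decompose_mul_of_right_mem_of_le
    (homogeneousSubmodule (Fin n) K) (a := p) (b := q) (i := d) (n := m)
    ((mem_homogeneousSubmodule _ _).mpr hq) h
  rw [← decomposition.decompose'_apply, ← decomposition.decompose'_apply]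
  exact h1

end hom

/-- forms of large degree are in the ideal -/
lemma exists_mem_span {F : Fin n → MvPolynomial (Fin n) K}
    (h0 : ∀ z : Fin n → AlgebraicClosure K, (∀ i, aeval z (F i) = 0) → z = 0) :
    ∃ e : ℕ, ∀ m, e ≤ m → ∀ p : MvPolynomial (Fin n) K, p.IsHomogeneous m →
      p ∈ Ideal.span (Set.range F) := by
  set I := Ideal.span (Set.range F) with hI
  have h1 : ∀ i, (X i : MvPolynomial (Fin n) K) ∈ I.radical := by
    intro i
    rw [← vanishingIdeal_zeroLocus_eq_radical (K := AlgebraicClosure K), mem_vanishingIdeal_iff]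
    intro z hz
    have hz0 : z = 0 := by
      apply h0
      intro j
      exact hz (F j) (Ideal.subset_span ⟨j, rfl⟩)
    rw [hz0]
    simp
  have h2 : ∀ i, ∃ k : ℕ, (X i : MvPolynomial (Fin n) K) ^ k ∈ I := h1
  choose k hk using h2
  set k0 := ∑ i, k i with hk0
  have h3 : ∀ i, ∀ l, k0 ≤ l → (X i : MvPolynomial (Fin n) K) ^ l ∈ I := by
    intro i l hl
    have h4 : k i ≤ l := (Finset.single_le_sum (fun j _ => Nat.zero_le (k j))
      (Finset.mem_univ i)).trans hl
    rw [← Nat.sub_add_cancel h4, pow_add]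
    exact Ideal.mul_mem_left _ _ (hk i)
  refine ⟨n * k0 + 1, fun m hm p hp => ?_⟩
  rw [p.as_sum]
  refine Ideal.sum_mem _ fun s hs => ?_
  have hs' : s.degree = m := by
    have := hp (mem_support_iff.mp hs)
    rw [← this, Finsupp.degree_eq_weight_one]
    rfl
  obtain ⟨i, hi⟩ : ∃ i, k0 ≤ s i := by
    by_contra hcon
    push Not at hcon
    have h5 : s.degree ≤ ∑ _i : Fin n, k0 := by
      rw [Finsupp.degree_eq_sum]
      exact Finset.sum_le_sum fun i _ => (hcon i).le
    rw [Finset.sum_const, Finset.card_univ, Fintype.card_fin, smul_eq_mul] at h5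
    omega
  rw [monomial_eq, Finsupp.prod_fintype _ _ (fun i => pow_zero _),
    ← Finset.mul_prod_erase _ _ (Finset.mem_univ i)]
  refine Ideal.mul_mem_left _ _ (Ideal.mul_mem_right _ _ (h3 i _ hi))

/-- a form of large degree is a combination of the `F i`, with homogeneous coefficients -/
lemma exists_bez {F : Fin n → MvPolynomial (Fin n) K} {d : ℕ}
    (hF : ∀ i, (F i).IsHomogeneous d)
    {m : ℕ} (hm : d ≤ m) {p : MvPolynomial (Fin n) K} (hp : p.IsHomogeneous m)
    (hpI : p ∈ Ideal.span (Set.range F)) :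
    ∃ q : Fin n → MvPolynomial (Fin n) K, (∀ i, (q i).IsHomogeneous (m - d)) ∧
      p = ∑ i, q i * F i := by
  rw [Ideal.mem_span_range_iff_exists_fun] at hpI
  obtain ⟨c, hc⟩ := hpI
  refine ⟨fun i => homogeneousComponent (m - d) (c i), fun i =>
    homogeneousComponent_isHomogeneous _ _, ?_⟩
  have h1 : homogeneousComponent m p = p := by
    rw [homogeneousComponent_of_mem ((mem_homogeneousSubmodule _ _).mpr hp)]
    simp
  rw [← h1, ← hc, map_sum]
  exact Finset.sum_congr rfl fun i _ => homComp_mul_right (hF i) hm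

/-- the degree belonging to a list of exponents -/
def ldeg (d : ℕ) : List ℕ → ℕ
  | [] => 0
  | r :: l => r + d * ldeg d l

/-- products of monomials of the iterates -/
def GG (F : Fin n → MvPolynomial (Fin n) K) : List ℕ → Set (MvPolynomial (Fin n) K)
  | [] => {1}
  | r :: l => {p | ∃ s : Fin n →₀ ℕ, s.degree = r ∧ ∃ g ∈ GG F l, p = monomial s 1 * bind₁ F g}

/-- all entries but the last are at least `c` -/
def LOK (c : ℕ) : List ℕ → Prop
  | [] => True
  | r :: l => (l = [] ∨ c ≤ r) ∧ LOK c l

/-- one step -/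
lemma step_mem {F : Fin n → MvPolynomial (Fin n) K} {d c r : ℕ}
    (hF : ∀ i, (F i).IsHomogeneous d)
    (hc : ∀ m, c + d ≤ m → ∀ p : MvPolynomial (Fin n) K, p.IsHomogeneous m →
      p ∈ Ideal.span (Set.range F)) (k : ℕ) (hk : k = 0 ∨ c ≤ r)
    {p : MvPolynomial (Fin n) K} (hp : p.IsHomogeneous (r + d * k)) :
    p ∈ Submodule.span K {p | ∃ s : Fin n →₀ ℕ, s.degree = r ∧
      ∃ g : MvPolynomial (Fin n) K, g.IsHomogeneous k ∧ p = monomial s 1 * bind₁ F g} := by
  induction k generalizing p with
  | zero =>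
    rw [p.as_sum]
    refine Submodule.sum_mem _ fun s hs => ?_
    have h1 : s.degree = r := by
      have := hp (mem_support_iff.mp hs)
      rw [mul_zero, add_zero] at this
      rw [← this, Finsupp.degree_eq_weight_one]
      rfl
    have h2 : (monomial s (coeff s p) : MvPolynomial (Fin n) K) =
        coeff s p • (monomial s 1 * bind₁ F 1) := by
      rw [map_one (bind₁ F), mul_one, smul_monomial, smul_eq_mul, mul_one]
    rw [h2]
    exact Submodule.smul_mem _ _ (Submodule.subset_span
      ⟨s, h1, 1, isHomogeneous_one _ _, rfl⟩)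
  | succ k ih =>
    have hcr : c ≤ r := by
      rcases hk with h | h
      · omega
      · exact h
    have hm : c + d ≤ r + d * (k + 1) := by
      rw [Nat.mul_succ]
      have := Nat.zero_le (d * k)
      omega
    obtain ⟨q, hq, hpq⟩ := exists_bez hF (m := r + d * (k + 1)) (by
      rw [Nat.mul_succ]; omega) hp (hc _ hm p hp)
    rw [hpq]
    refine Submodule.sum_mem _ fun i _ => ?_
    have h1 : r + d * (k + 1) - d = r + d * k := by
      rw [Nat.mul_succ]; omega
    have h2 := hq i
    rw [h1] at h2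
    have h3 := ih (Or.inr hcr) h2
    -- multiplication by `F i`
    refine Submodule.span_induction (p := fun x _ => x * F i ∈ Submodule.span K
      {p | ∃ s : Fin n →₀ ℕ, s.degree = r ∧
      ∃ g : MvPolynomial (Fin n) K, g.IsHomogeneous (k + 1) ∧ p = monomial s 1 * bind₁ F g})
      ?_ ?_ ?_ ?_ h3
    · rintro x ⟨s, hs, g, hg, rfl⟩
      refine Submodule.subset_span ⟨s, hs, g * X i, hg.mul (isHomogeneous_X _ _), ?_⟩
      rw [map_mul, bind₁_X_right, mul_assoc]
    · rw [zero_mul]
      exact Submodule.zero_mem _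
    · intro x y _ _ hx hy
      rw [add_mul]
      exact Submodule.add_mem _ hx hy
    · intro a x _ hx
      rw [smul_mul_assoc]
      exact Submodule.smul_mem _ _ hx

lemma homSub_le_span {F : Fin n → MvPolynomial (Fin n) K} {d c : ℕ}
    (hF : ∀ i, (F i).IsHomogeneous d)
    (hc : ∀ m, c + d ≤ m → ∀ p : MvPolynomial (Fin n) K, p.IsHomogeneous m →
      p ∈ Ideal.span (Set.range F)) (l : List ℕ) (hl : LOK c l)
    {p : MvPolynomial (Fin n) K} (hp : p.IsHomogeneous (ldeg d l)) :
    p ∈ Submodule.span K (GG F l) := by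
  induction l generalizing p with
  | nil =>
    have h1 : p ∈ homogeneousSubmodule (Fin n) K 0 := (mem_homogeneousSubmodule _ _).mpr hp
    rw [homogeneousSubmodule_zero, Submodule.mem_one] at h1
    obtain ⟨a, rfl⟩ := h1
    rw [Algebra.algebraMap_eq_smul_one]
    exact Submodule.smul_mem _ _ (Submodule.subset_span rfl)
  | cons r l ih =>
    have h1 := step_mem hF hc (r := r) (ldeg d l) (by
      rcases hl.1 with h | h
      · left
        rw [h]
        rfl
      · exact Or.inr h) hp
    refine (Submodule.span_le.mpr ?_) h1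
    rintro x ⟨s, hs, g, hg, rfl⟩
    have h2 := ih hl.2 hg
    refine Submodule.span_induction (p := fun x _ => monomial s 1 * bind₁ F x ∈
      Submodule.span K (GG F (r :: l))) ?_ ?_ ?_ ?_ h2
    · intro x hx
      exact Submodule.subset_span ⟨s, hs, x, hx, rfl⟩
    · rw [map_zero, mul_zero]
      exact Submodule.zero_mem _
    · intro x y _ _ hx hy
      rw [map_add, mul_add]
      exact Submodule.add_mem _ hx hy
    · intro a x _ hx
      rw [map_smul, mul_smul_comm]
      exact Submodule.smul_mem _ _ hx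

/-- lists of exponents exist in every degree -/
lemma exists_list {d c : ℕ} (hd : 2 ≤ d) (m : ℕ) :
    ∃ l : List ℕ, ldeg d l = m ∧ LOK c l ∧ (∀ r ∈ l, r ≤ c + d) ∧
      l.length ≤ 1 + Nat.log 2 m := by
  induction m using Nat.strong_induction_on with
  | _ m ih =>
    by_cases hm : m < c + d
    · refine ⟨[m], by simp [ldeg], ⟨Or.inl rfl, trivial⟩, ?_, by simp⟩
      intro r hr
      rw [List.mem_singleton] at hr
      omega
    · push Not at hm
      have hk0 : 1 ≤ (m - c) / d := by
        rw [Nat.one_le_div_iff (by omega)]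
        omega
      have hk1 : (m - c) / d ≤ m / 2 :=
        (Nat.div_le_div_right (Nat.sub_le m c)).trans (Nat.div_le_div_left hd (by norm_num))
      have hk2 : (m - c) / d < m := by omega
      obtain ⟨l, h1, h2, h3, h4⟩ := ih ((m - c) / d) hk2
      refine ⟨(c + (m - c) % d) :: l, ?_, ⟨Or.inr (by omega), h2⟩, ?_, ?_⟩
      · rw [ldeg, h1]
        have := Nat.mod_add_div (m - c) d
        omega
      · intro r hr
        rcases List.mem_cons.mp hr with rfl | hr
        · have := Nat.mod_lt (m - c) (show 0 < d by omega)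
          omega
        · exact h3 r hr
      · rw [List.length_cons]
        have h5 : Nat.log 2 ((m - c) / d) + 1 ≤ Nat.log 2 m := by
          have h6 : Nat.log 2 ((m - c) / d) ≤ Nat.log 2 (m / 2) := Nat.log_mono_right hk1
          rw [Nat.log_div_base] at h6
          have h7 : 1 ≤ Nat.log 2 m := by
            apply Nat.log_pos (by norm_num)
            omega
          omega
        omega

/-- the weight -/
def wt {α : Type*} (ν : α → ℝ) (T : α → α) : List ℕ → α → ℝ
  | [], _ => 1
  | r :: l, x => ν x ^ r * wt ν T l (T x)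

lemma wt_pos {α : Type*} {ν : α → ℝ} {T : α → α} (l : List ℕ) {x : α}
    (h : ∀ j, 0 < ν (T^[j] x)) : 0 < wt ν T l x := by
  induction l generalizing x with
  | nil => exact one_pos
  | cons r l ih =>
    refine mul_pos (pow_pos (h 0) _) (ih fun j => ?_)
    have := h (j + 1)
    rwa [Function.iterate_succ_apply] at this

lemma wt_nonneg {α : Type*} {ν : α → ℝ} {T : α → α} (l : List ℕ) {x : α}
    (h : ∀ y, 0 ≤ ν y) : 0 ≤ wt ν T l x := by
  induction l generalizing x with
  | nil => exact zero_le_one
  | cons r l ih => exact mul_nonneg (pow_nonneg (h _) _) ih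

lemma wt_le {α : Type*} {ν : α → ℝ} {T : α → α} {d : ℕ} (hd : 2 ≤ d) {A : ℝ} (hA : 1 ≤ A)
    (hν : ∀ y, 0 ≤ ν y) (h : ∀ x, ν (T x) ≤ A * ν x ^ d) (l : List ℕ) (x : α) :
    wt ν T l x ≤ (A * ν x) ^ ldeg d l := by
  induction l generalizing x with
  | nil => simp [wt, ldeg]
  | cons r l ih =>
    rw [wt, ldeg]
    have hx := hν x
    have h1 : (A * ν (T x)) ^ ldeg d l ≤ (A * ν x) ^ (d * ldeg d l) := by
      rw [pow_mul]
      apply pow_le_pow_left₀ (mul_nonneg (by linarith) (hν _))
      calc A * ν (T x) ≤ A * (A * ν x ^ d) :=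
            mul_le_mul_of_nonneg_left (h x) (by linarith)
        _ = A ^ 2 * ν x ^ d := by ring
        _ ≤ A ^ d * ν x ^ d :=
            mul_le_mul_of_nonneg_right (pow_le_pow_right₀ hA hd) (pow_nonneg hx _)
        _ = (A * ν x) ^ d := by rw [mul_pow]
    calc ν x ^ r * wt ν T l (T x) ≤ (A * ν x) ^ r * (A * ν x) ^ (d * ldeg d l) := by
          apply mul_le_mul _ ((ih _).trans h1) (wt_nonneg l hν) (by positivity)
          apply pow_le_pow_left₀ hx
          nlinarith
      _ = _ := by rw [← pow_add]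

lemma le_wt {α : Type*} {ν : α → ℝ} {T : α → α} {d : ℕ} (hd : 2 ≤ d) {B : ℝ} (hB : 1 ≤ B)
    (hν : ∀ y, 0 ≤ ν y) (h : ∀ x, ν x ^ d ≤ B * ν (T x)) (l : List ℕ) (x : α) :
    ν x ^ ldeg d l ≤ B ^ ldeg d l * wt ν T l x := by
  induction l generalizing x with
  | nil => simp [wt, ldeg]
  | cons r l ih =>
    rw [wt, ldeg]
    have hx := hν x
    have h0 : 0 ≤ B := by linarith
    have h2 := ih (T x)
    have h3 : 0 ≤ wt ν T l (T x) := wt_nonneg l hν
    calc ν x ^ (r + d * ldeg d l) = ν x ^ r * (ν x ^ d) ^ ldeg d l := by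
          rw [pow_add, pow_mul]
      _ ≤ ν x ^ r * (B * ν (T x)) ^ ldeg d l := by gcongr; exact h x
      _ = ν x ^ r * (B ^ ldeg d l * ν (T x) ^ ldeg d l) := by rw [mul_pow]
      _ ≤ ν x ^ r * (B ^ ldeg d l * (B ^ ldeg d l * wt ν T l (T x))) := by gcongr
      _ = B ^ (2 * ldeg d l) * (ν x ^ r * wt ν T l (T x)) := by
          rw [two_mul, pow_add]; ring
      _ ≤ B ^ (r + d * ldeg d l) * (ν x ^ r * wt ν T l (T x)) := by
          refine mul_le_mul_of_nonneg_right (pow_le_pow_right₀ hB ?_)
            (mul_nonneg (pow_nonneg hx _) h3)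
          have : 2 * ldeg d l ≤ d * ldeg d l := Nat.mul_le_mul_right _ hd
          omega

/-- an absolute value of an element of `GG` is bounded by the weight -/
lemma abs_le_wt {M : Type*} [Field M] [Algebra K M] (f : M →*₀ ℝ) (hf : ∀ x, 0 ≤ f x)
    {F : Fin n → MvPolynomial (Fin n) K} {ν : (Fin n → M) → ℝ} (hν : ∀ x j, f (x j) ≤ ν x)
    (hν0 : ∀ x, 0 ≤ ν x)
    (l : List ℕ) {φ : MvPolynomial (Fin n) K} (hφ : φ ∈ GG F l) (x : Fin n → M) :
    f (aeval x φ) ≤ wt ν (act F) l x := by
  induction l generalizing φ x with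
  | nil =>
    rw [GG, Set.mem_singleton_iff] at hφ
    rw [hφ, map_one, map_one]
    exact le_rfl
  | cons r l ih =>
    obtain ⟨s, hs, g, hg, rfl⟩ := hφ
    rw [map_mul, map_mul, wt]
    have h1 : aeval x (bind₁ F g) = aeval (act F x) g := by
      rw [aeval_bind₁]
      rfl
    rw [h1]
    apply mul_le_mul _ (ih hg _) (hf _) (pow_nonneg (hν0 _) _)
    rw [aeval_monomial, map_one, one_mul, Finsupp.prod_fintype _ _ (fun i => pow_zero _),
      map_prod, ← hs, Finsupp.degree_eq_sum, ← Finset.prod_pow_eq_pow_sum]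
    refine Finset.prod_le_prod (fun i _ => hf _) fun i _ => ?_
    rw [map_pow]
    exact pow_le_pow_left₀ (hf _) (hν x i) _

end

end Pool.Agent.W238.Leh
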