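import Mathlib
import Pool.Agent.W238.Leh.Forms

/-!
Sums over all places of a number field, heights of vectors, and the weights of `Forms`.
-/

set_option autoImplicit false
set_option linter.unusedSectionVars false

namespace Pool.Agent.W238.Leh

open NumberField Module MvPolynomial

noncomputable section

variable {K : Type*} [Field K] {L : Type*} [Field L] [NumberField L] {N : ℕ}

/-- sup norm at an infinite place -/
def nmi (w : InfinitePlace L) (z : Fin (N + 1) → L) : ℝ := ⨆ i, w (z i)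

/-- sup norm at a finite place -/
def nmf (v : FinitePlace L) (z : Fin (N + 1) → L) : ℝ := ⨆ i, v (z i)

lemma le_nmi (w : InfinitePlace L) (z : Fin (N + 1) → L) (i : Fin (N + 1)) :
    w (z i) ≤ nmi w z := le_ciSup (f := fun i => w (z i)) (Finite.bddAbove_range _) i

lemma le_nmf (v : FinitePlace L) (z : Fin (N + 1) → L) (i : Fin (N + 1)) :
    v (z i) ≤ nmf v z := le_ciSup (f := fun i => v (z i)) (Finite.bddAbove_range _) i

lemma v_nonneg (v : FinitePlace L) (x : L) : 0 ≤ v x := by positivity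

lemma nmi_nonneg (w : InfinitePlace L) (z : Fin (N + 1) → L) : 0 ≤ nmi w z :=
  (by positivity : (0 : ℝ) ≤ w (z 0)).trans (le_nmi w z 0)

lemma nmf_nonneg (v : FinitePlace L) (z : Fin (N + 1) → L) : 0 ≤ nmf v z :=
  (v_nonneg v (z 0)).trans (le_nmf v z 0)

lemma nmi_le {w : InfinitePlace L} {z : Fin (N + 1) → L} {B : ℝ} (h : ∀ i, w (z i) ≤ B) :
    nmi w z ≤ B := ciSup_le h

lemma nmf_le {v : FinitePlace L} {z : Fin (N + 1) → L} {B : ℝ} (h : ∀ i, v (z i) ≤ B) :
    nmf v z ≤ B := ciSup_le h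

lemma nmi_pos (w : InfinitePlace L) {z : Fin (N + 1) → L} (hz : z ≠ 0) : 0 < nmi w z := by
  obtain ⟨i, hi⟩ : ∃ i, z i ≠ 0 := Function.ne_iff.mp hz
  exact lt_of_lt_of_le (InfinitePlace.pos_iff.mpr hi) (le_nmi w z i)

lemma nmf_pos (v : FinitePlace L) {z : Fin (N + 1) → L} (hz : z ≠ 0) : 0 < nmf v z := by
  obtain ⟨i, hi⟩ : ∃ i, z i ≠ 0 := Function.ne_iff.mp hz
  exact lt_of_lt_of_le (FinitePlace.pos_iff.mpr hi) (le_nmf v z i)

/-- the pair `(a, b)` of functions on the infinite and finite places has global sum `s` -/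
def HasGS (a : InfinitePlace L → ℝ) (b : FinitePlace L → ℝ) (s : ℝ) : Prop :=
  (Function.support b).Finite ∧ ∑ w : InfinitePlace L, (w.mult : ℝ) * a w + ∑ᶠ v, b v = s

lemma sum_mult : ∑ w : InfinitePlace L, (w.mult : ℝ) = finrank ℚ L := by
  exact_mod_cast InfinitePlace.sum_mult_eq (K := L)

lemma HasGS.zero : HasGS (L := L) (fun _ => 0) (fun _ => 0) 0 := by
  refine ⟨?_, by simp⟩
  have : (Function.support fun _ : FinitePlace L => (0 : ℝ)) = ∅ := by
    ext; simp
  rw [this]
  exact Set.finite_empty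

lemma HasGS.add {a a' : InfinitePlace L → ℝ} {b b' : FinitePlace L → ℝ} {s s' : ℝ}
    (h : HasGS a b s) (h' : HasGS a' b' s') :
    HasGS (fun w => a w + a' w) (fun v => b v + b' v) (s + s') := by
  refine ⟨(h.1.union h'.1).subset (Function.support_add _ _), ?_⟩
  rw [finsum_add_distrib h.1 h'.1, ← h.2, ← h'.2]
  simp only [mul_add, Finset.sum_add_distrib]
  ring

lemma HasGS.const_mul {a : InfinitePlace L → ℝ} {b : FinitePlace L → ℝ} {s : ℝ}
    (h : HasGS a b s) (c : ℝ) : HasGS (fun w => c * a w) (fun v => c * b v) (c * s) := by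
  refine ⟨h.1.subset fun v hv => ?_, ?_⟩
  · rw [Function.mem_support] at hv ⊢
    exact right_ne_zero_of_mul hv
  · have h1 : ∑ᶠ v, c * b v = c * ∑ᶠ v, b v := (mul_finsum b c).symm
    simp only
    rw [h1, ← h.2, mul_add, Finset.mul_sum]
    congr 1
    exact Finset.sum_congr rfl fun w _ => by ring

lemma HasGS.sum {ι : Type*} (t : Finset ι) {a : ι → InfinitePlace L → ℝ}
    {b : ι → FinitePlace L → ℝ} {s : ι → ℝ} (h : ∀ i ∈ t, HasGS (a i) (b i) (s i)) :
    HasGS (fun w => ∑ i ∈ t, a i w) (fun v => ∑ i ∈ t, b i v) (∑ i ∈ t, s i) := by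
  classical
  induction t using Finset.induction_on with
  | empty => simpa using HasGS.zero
  | insert i t hi ih =>
    simp only [Finset.sum_insert hi]
    exact (h i (Finset.mem_insert_self _ _)).add
      (ih fun j hj => h j (Finset.mem_insert_of_mem hj))

/-- comparison of two global sums, with a gain at one infinite place -/
lemma HasGS.le {a a' : InfinitePlace L → ℝ} {b b' : FinitePlace L → ℝ} {s s' : ℝ}
    (h : HasGS a b s) (h' : HasGS a' b' s') {c : ℝ} (ha : ∀ w, a w ≤ a' w + c)
    (hb : ∀ v, b v ≤ b' v) : s ≤ s' + finrank ℚ L * c := by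
  have h1 : ∑ w : InfinitePlace L, (w.mult : ℝ) * a w ≤
      ∑ w : InfinitePlace L, (w.mult : ℝ) * a' w + finrank ℚ L * c := by
    rw [← sum_mult, Finset.sum_mul, ← Finset.sum_add_distrib]
    refine Finset.sum_le_sum fun w _ => ?_
    rw [← mul_add]
    exact mul_le_mul_of_nonneg_left (ha w) (by positivity)
  have h2 : ∑ᶠ v, b v ≤ ∑ᶠ v, b' v := finsum_le_finsum' h.1 h'.1 hb
  have h3 := h.2
  have h4 := h'.2
  linarith

lemma HasGS.le_gain {a a' : InfinitePlace L → ℝ} {b b' : FinitePlace L → ℝ} {s s' : ℝ}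
    (h : HasGS a b s) (h' : HasGS a' b' s') {c g : ℝ} (hg : 0 ≤ g) (ha : ∀ w, a w ≤ a' w + c)
    (w₀ : InfinitePlace L) (ha₀ : a w₀ ≤ a' w₀ + c - g)
    (hb : ∀ v, b v ≤ b' v) : s ≤ s' + finrank ℚ L * c - g := by
  classical
  have h1 : ∑ w : InfinitePlace L, (w.mult : ℝ) * a w ≤
      ∑ w : InfinitePlace L, (w.mult : ℝ) * a' w + finrank ℚ L * c - g := by
    rw [← sum_mult, Finset.sum_mul, ← Finset.sum_add_distrib]
    have h2 : g = ∑ w : InfinitePlace L, if w = w₀ then g else 0 := by simp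
    rw [h2, ← Finset.sum_sub_distrib]
    refine Finset.sum_le_sum fun w _ => ?_
    have hm : (1 : ℝ) ≤ w.mult := by exact_mod_cast InfinitePlace.mult_pos
    rw [← mul_add]
    split_ifs with hw
    · rw [hw] at hm ⊢
      have h3 : (w₀.mult : ℝ) * a w₀ ≤ w₀.mult * (a' w₀ + c - g) :=
        mul_le_mul_of_nonneg_left ha₀ (by positivity)
      nlinarith
    · rw [sub_zero]
      exact mul_le_mul_of_nonneg_left (ha w) (by positivity)
  have h2 : ∑ᶠ v, b v ≤ ∑ᶠ v, b' v := finsum_le_finsum' h.1 h'.1 hb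
  have h3 := h.2
  have h4 := h'.2
  linarith

lemma finprod_pos' {α : Type*} {f : α → ℝ} (hf : ∀ i, 0 < f i) : 0 < ∏ᶠ i, f i :=
  finprod_induction (fun x : ℝ => 0 < x) one_pos (fun _ _ hx hy => mul_pos hx hy) hf

lemma supp_log_v {x : L} (hx : x ≠ 0) :
    (Function.support fun v : FinitePlace L => Real.log (v x)).Finite := by
  refine (FinitePlace.hasFiniteMulSupport hx).subset fun v hv => ?_
  rw [Function.mem_support] at hv
  rw [Function.mem_mulSupport]
  intro h
  apply hv
  rw [h, Real.log_one]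

lemma supp_log_nmf {z : Fin (N + 1) → L} (hz : z ≠ 0) :
    (Function.support fun v : FinitePlace L => Real.log (nmf v z)).Finite := by
  have h0 : (Function.support fun v : FinitePlace L => Real.log (nmf v z)) ⊆
      ⋃ i : Fin (N + 1), {v : FinitePlace L | z i ≠ 0 ∧ v (z i) ≠ 1} := by
    intro v hv
    rw [Function.mem_support] at hv
    by_contra hcon
    apply hv
    simp only [Set.mem_iUnion, Set.mem_ofPred_eq, not_exists, not_and, not_not] at hcon
    have h1 : nmf v z = 1 := by
      obtain ⟨i, hi⟩ : ∃ i, z i ≠ 0 := Function.ne_iff.mp hz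
      apply le_antisymm
      · refine nmf_le fun j => ?_
        by_cases hj : z j = 0
        · rw [hj, map_zero]
          exact zero_le_one
        · exact (hcon j hj).le
      · rw [← hcon i hi]
        exact le_nmf v z i
    rw [h1, Real.log_one]
  refine Set.Finite.subset (Set.finite_iUnion fun i => ?_) h0
  by_cases h : z i = 0
  · simp [h]
  · exact (FinitePlace.hasFiniteMulSupport h).subset fun v hv => hv.2

/-- the product formula -/
lemma HasGS.prod {x : L} (hx : x ≠ 0) :
    HasGS (fun w => Real.log (w x)) (fun v => Real.log (v x)) 0 := by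
  refine ⟨supp_log_v hx, ?_⟩
  have h1 := prod_abs_eq_one hx
  have hw : ∀ w : InfinitePlace L, 0 < w x := fun w => InfinitePlace.pos_iff.mpr hx
  have hv : ∀ v : FinitePlace L, 0 < v x := fun v => FinitePlace.pos_iff.mpr hx
  have h2 : (0 : ℝ) < ∏ᶠ v : FinitePlace L, v x := finprod_pos' hv
  have h3 := congrArg Real.log h1
  rw [Real.log_mul (Finset.prod_ne_zero_iff.mpr fun w _ => pow_ne_zero _ (hw w).ne') h2.ne',
    Real.log_prod (fun w _ => pow_ne_zero _ (hw w).ne'), Real.log_finprod hv, Real.log_one] at h3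
  rw [← h3]
  congr 1
  refine Finset.sum_congr rfl fun w _ => ?_
  rw [Real.log_pow]

lemma HasGS.height {z : Fin (N + 1) → L} (hz : z ≠ 0) :
    HasGS (fun w => Real.log (nmi w z)) (fun v => Real.log (nmf v z)) (Height.logHeight z) := by
  refine ⟨supp_log_nmf hz, ?_⟩
  have h1 := NumberField.mulHeight_eq hz
  have hw : ∀ w : InfinitePlace L, (⨆ i, w (z i)) = nmi w z := fun w => rfl
  have hv : ∀ v : FinitePlace L, (⨆ i, v (z i)) = nmf v z := fun v => rfl
  simp only [hw, hv] at h1
  have h2 : (0 : ℝ) < ∏ᶠ v : FinitePlace L, nmf v z := finprod_pos' fun v => nmf_pos v hz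
  rw [Height.logHeight_eq_log_mulHeight, h1,
    Real.log_mul (Finset.prod_ne_zero_iff.mpr fun w _ => pow_ne_zero _ (nmi_pos w hz).ne') h2.ne',
    Real.log_prod (fun w _ => pow_ne_zero _ (nmi_pos w hz).ne'),
    Real.log_finprod fun v => nmf_pos v hz]
  congr 1
  refine Finset.sum_congr rfl fun w _ => ?_
  rw [Real.log_pow]

variable [Algebra K L]

/-- the height belonging to a list of exponents -/
def HL (F : Fin (N + 1) → MvPolynomial (Fin (N + 1)) K) : List ℕ → (Fin (N + 1) → L) → ℝ
  | [], _ => 0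
  | r :: l, x => r * Height.logHeight x + HL F l (act F x)

lemma HasGS.wt {F : Fin (N + 1) → MvPolynomial (Fin (N + 1)) K} (l : List ℕ)
    {x : Fin (N + 1) → L} (hx : ∀ j, (act F)^[j] x ≠ 0) :
    HasGS (fun w => Real.log (Leh.wt (nmi w) (act F) l x))
      (fun v => Real.log (Leh.wt (nmf v) (act F) l x)) (HL F l x) := by
  induction l generalizing x with
  | nil =>
    simp only [Leh.wt, HL, Real.log_one]
    exact HasGS.zero
  | cons r l ih =>
    have hx' : ∀ j, (act F)^[j] (act F x) ≠ 0 := fun j => by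
      have := hx (j + 1)
      rwa [Function.iterate_succ_apply] at this
    have hx0 : x ≠ 0 := hx 0
    have h1 := ((HasGS.height hx0).const_mul r).add (ih hx')
    have ew : ∀ w : InfinitePlace L, Real.log (Leh.wt (nmi w) (act F) (r :: l) x) =
        r * Real.log (nmi w x) + Real.log (Leh.wt (nmi w) (act F) l (act F x)) := by
      intro w
      rw [Leh.wt, Real.log_mul (pow_ne_zero _ (nmi_pos w hx0).ne')
        (wt_pos l fun j => nmi_pos w (hx' j)).ne', Real.log_pow]
    have ev : ∀ v : FinitePlace L, Real.log (Leh.wt (nmf v) (act F) (r :: l) x) =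
        r * Real.log (nmf v x) + Real.log (Leh.wt (nmf v) (act F) l (act F x)) := by
      intro v
      rw [Leh.wt, Real.log_mul (pow_ne_zero _ (nmf_pos v hx0).ne')
        (wt_pos l fun j => nmf_pos v (hx' j)).ne', Real.log_pow]
    simp only [ew, ev]
    exact h1

end

end Pool.Agent.W238.Leh
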