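import Mathlib
import Pool.Agent.W238.Leh.Hts

/-!
Local bounds for a tuple of forms without common zero.
-/

set_option autoImplicit false
set_option linter.unusedSectionVars false

namespace Pool.Agent.W238.Leh

open NumberField Module MvPolynomial

noncomputable section

variable {K : Type} [Field K] [NumberField K] {N : ℕ}

/-- the map given by a tuple of polynomials on complex vectors -/
def actC (σ : K →+* ℂ) (F : Fin (N + 1) → MvPolynomial (Fin (N + 1)) K)
    (y : Fin (N + 1) → ℂ) : Fin (N + 1) → ℂ := fun i => eval₂ σ y (F i)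

/-- size of a polynomial -/
def psz (p : MvPolynomial (Fin (N + 1)) K) : ℝ :=
  ∑ σ : K →+* ℂ, ∑ s ∈ p.support, ‖σ (p.coeff s)‖

lemma psz_nonneg (p : MvPolynomial (Fin (N + 1)) K) : 0 ≤ psz p :=
  Finset.sum_nonneg fun _ _ => Finset.sum_nonneg fun _ _ => norm_nonneg _

lemma eval_le_psz {p : MvPolynomial (Fin (N + 1)) K} {m : ℕ} (hp : p.IsHomogeneous m)
    (σ : K →+* ℂ) (y : Fin (N + 1) → ℂ) : ‖eval₂ σ y p‖ ≤ psz p * ‖y‖ ^ m := by
  have h1 : ‖eval₂ σ y p‖ ≤ (∑ s ∈ p.support, ‖σ (p.coeff s)‖) * ‖y‖ ^ m := by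
    rw [eval₂_eq', Finset.sum_mul]
    refine (norm_sum_le _ _).trans (Finset.sum_le_sum fun s hs => ?_)
    rw [norm_mul, norm_prod]
    refine mul_le_mul_of_nonneg_left ?_ (norm_nonneg _)
    have h2 : ∑ i, s i = m := by
      have := hp (mem_support_iff.mp hs)
      rw [← this]
      have h3 := Finsupp.degree_eq_sum (σ := Fin (N + 1)) s
      rw [← h3, Finsupp.degree_eq_weight_one]
      rfl
    rw [← h2, ← Finset.prod_pow_eq_pow_sum]
    refine Finset.prod_le_prod (fun i _ => norm_nonneg _) fun i _ => ?_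
    rw [norm_pow]
    exact pow_le_pow_left₀ (norm_nonneg _) (norm_le_pi_norm y i) _
  refine h1.trans (mul_le_mul_of_nonneg_right ?_ (by positivity))
  exact Finset.single_le_sum
    (f := fun σ : K →+* ℂ => ∑ s ∈ p.support, ‖σ (p.coeff s)‖)
    (fun _ _ => Finset.sum_nonneg fun _ _ => norm_nonneg _) (Finset.mem_univ σ)

/-- the finite places of an extension on integral forms -/
lemma v_sum_le {L : Type*} [Field L] [NumberField L] (v : FinitePlace L) {ι : Type*}
    (s : Finset ι) (g : ι → L) {B : ℝ} (hB : 0 ≤ B)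
    (h : ∀ i ∈ s, v (g i) ≤ B) : v (∑ i ∈ s, g i) ≤ B := by
  classical
  induction s using Finset.induction_on with
  | empty => simpa using hB
  | insert a s ha ih =>
    rw [Finset.sum_insert ha]
    refine (FinitePlace.add_le v _ _).trans (max_le (h a (Finset.mem_insert_self _ _)) ?_)
    exact ih fun i hi => h i (Finset.mem_insert_of_mem hi)

lemma v_int_le {L : Type*} [Field L] [NumberField L] (v : FinitePlace L) {x : L}
    (hx : IsIntegral ℤ x) : v x ≤ 1 := by
  have h1 := FinitePlace.norm_le_one (K := L) v.maximalIdeal (⟨x, hx⟩ : 𝓞 L)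
  rwa [FinitePlace.norm_embedding_eq] at h1

variable {L : Type} [Field L] [NumberField L] [Algebra K L]

lemma v_eval_le (v : FinitePlace L) {p : MvPolynomial (Fin (N + 1)) K} {m : ℕ}
    (hp : p.IsHomogeneous m) (hint : ∀ s, IsIntegral ℤ (p.coeff s)) (z : Fin (N + 1) → L) :
    v (aeval z p) ≤ nmf v z ^ m := by
  rw [aeval_def, eval₂_eq']
  refine v_sum_le v _ _ (pow_nonneg (nmf_nonneg v z) _) fun s hs => ?_
  rw [map_mul, map_prod]
  have h2 : ∑ i, s i = m := by
    have := hp (mem_support_iff.mp hs)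
    rw [← this]
    have h3 := Finsupp.degree_eq_sum (σ := Fin (N + 1)) s
    rw [← h3, Finsupp.degree_eq_weight_one]
    rfl
  have h4 : v (algebraMap K L (p.coeff s)) ≤ 1 := v_int_le v ((hint s).algebraMap)
  have h5 : ∏ i, v (z i ^ s i) ≤ nmf v z ^ m := by
    rw [← h2, ← Finset.prod_pow_eq_pow_sum]
    refine Finset.prod_le_prod (fun i _ => v_nonneg v _) fun i _ => ?_
    rw [map_pow]
    exact pow_le_pow_left₀ (v_nonneg v _) (le_nmf v z i) _
  calc v (algebraMap K L (p.coeff s)) * ∏ i, v (z i ^ s i) ≤ 1 * nmf v z ^ m :=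
        mul_le_mul h4 h5 (Finset.prod_nonneg fun i _ => v_nonneg v _) zero_le_one
    _ = _ := one_mul _

/-- common denominator of finitely many algebraic numbers -/
lemma exists_denom (T : Finset K) : ∃ a : ℕ, 1 ≤ a ∧ ∀ x ∈ T, IsIntegral ℤ ((a : K) * x) := by
  classical
  induction T using Finset.induction_on with
  | empty => exact ⟨1, le_rfl, by simp⟩
  | insert x T _ ih =>
    obtain ⟨a, ha, h⟩ := ih
    have hx : IsAlgebraic ℤ x := by
      have h1 : IsAlgebraic ℚ x := Algebra.IsAlgebraic.isAlgebraic x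
      exact (IsFractionRing.isAlgebraic_iff ℤ ℚ K).mpr h1
    obtain ⟨y, hy0, hy⟩ := hx.exists_integral_multiple
    refine ⟨a * y.natAbs, ?_, ?_⟩
    · have : 1 ≤ y.natAbs := Nat.one_le_iff_ne_zero.mpr (Int.natAbs_ne_zero.mpr hy0)
      exact Nat.one_le_iff_ne_zero.mpr (Nat.mul_ne_zero (by omega) (by omega))
    · have hy' : IsIntegral ℤ ((y.natAbs : K) * x) := by
        rcases Int.natAbs_eq y with h1 | h1
        · have h2 : ((y.natAbs : ℕ) : K) * x = y • x := by
            rw [zsmul_eq_mul]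
            congr 1
            conv_rhs => rw [h1]
            simp
          rw [h2]
          exact hy
        · have h2 : ((y.natAbs : ℕ) : K) * x = -(y • x) := by
            rw [zsmul_eq_mul, ← neg_mul]
            congr 1
            conv_rhs => rw [h1]
            simp
          rw [h2]
          exact hy.neg
      intro z hz
      rcases Finset.mem_insert.mp hz with rfl | hz
      · have h3 : (((a * y.natAbs : ℕ) : K) * z) = (a : K) * ((y.natAbs : K) * z) := by
          push_cast; ring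
        rw [h3]
        exact (isIntegral_natCast _).mul hy'
      · have h3 : (((a * y.natAbs : ℕ) : K) * z) = (y.natAbs : K) * ((a : K) * z) := by
          push_cast; ring
        rw [h3]
        exact (isIntegral_natCast _).mul (h z hz)

/-- the local bounds -/
structure Bds (F : Fin (N + 1) → MvPolynomial (Fin (N + 1)) K) (d : ℕ) (A : ℝ) (a : ℕ) :
    Prop where
  hA : 1 ≤ A
  ha : 1 ≤ a
  upC : ∀ (σ : K →+* ℂ) (y : Fin (N + 1) → ℂ), ‖actC σ F y‖ ≤ A * ‖y‖ ^ d
  loC : ∀ (σ : K →+* ℂ) (y : Fin (N + 1) → ℂ), ‖y‖ ^ d ≤ A * ‖actC σ F y‖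
  upf : ∀ (L : Type) [Field L] [NumberField L] [Algebra K L] (v : FinitePlace L)
    (z : Fin (N + 1) → L), nmf v (act F z) ≤ nmf v z ^ d
  lof : ∀ (L : Type) [Field L] [NumberField L] [Algebra K L] (v : FinitePlace L)
    (z : Fin (N + 1) → L), v (a : L) * nmf v z ^ d ≤ nmf v (act F z)

lemma exists_bds {F : Fin (N + 1) → MvPolynomial (Fin (N + 1)) K} {d c : ℕ} (hd : 1 ≤ d)
    (hF : ∀ i, (F i).IsHomogeneous d) (hint : ∀ i s, IsIntegral ℤ ((F i).coeff s))
    (hc : ∀ m, c + d ≤ m → ∀ p : MvPolynomial (Fin (N + 1)) K, p.IsHomogeneous m →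
      p ∈ Ideal.span (Set.range F)) : ∃ A a, Bds F d A a := by
  classical
  have h1 : ∀ i : Fin (N + 1), ∃ q : Fin (N + 1) → MvPolynomial (Fin (N + 1)) K,
      (∀ j, (q j).IsHomogeneous c) ∧ X i ^ (c + d) = ∑ j, q j * F j := by
    intro i
    have h2 := isHomogeneous_X_pow (R := K) i (c + d)
    obtain ⟨q, hq, hqs⟩ := exists_bez hF (m := c + d) (by omega) h2 (hc _ le_rfl _ h2)
    rw [Nat.add_sub_cancel] at hq
    exact ⟨q, hq, hqs⟩
  choose q hq hqs using h1
  set T : Finset K := Finset.univ.biUnion fun i => Finset.univ.biUnion fun j =>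
    (q i j).support.image (q i j).coeff with hT
  obtain ⟨a, ha, haT⟩ := exists_denom T
  have hqi : ∀ i j s, IsIntegral ℤ ((C (a : K) * q i j).coeff s) := by
    intro i j s
    rw [coeff_C_mul]
    by_cases hs : s ∈ (q i j).support
    · apply haT
      rw [hT]
      simp only [Finset.mem_biUnion, Finset.mem_image]
      exact ⟨i, Finset.mem_univ _, j, Finset.mem_univ _, s, hs, rfl⟩
    · rw [notMem_support_iff.mp hs, mul_zero]
      exact isIntegral_zero
  obtain ⟨A, hA1, hAF, hAq⟩ : ∃ A : ℝ, 1 ≤ A ∧ (∀ i, psz (F i) ≤ A) ∧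
      ∀ i, ∑ j, psz (q i j) ≤ A := by
    have hp1 : 0 ≤ ∑ i, psz (F i) := Finset.sum_nonneg fun _ _ => psz_nonneg _
    have hp2 : 0 ≤ ∑ i, ∑ j, psz (q i j) :=
      Finset.sum_nonneg fun _ _ => Finset.sum_nonneg fun _ _ => psz_nonneg _
    refine ⟨1 + ∑ i, psz (F i) + ∑ i, ∑ j, psz (q i j), by linarith, fun i => ?_, fun i => ?_⟩
    · have := Finset.single_le_sum (f := fun i => psz (F i)) (fun _ _ => psz_nonneg _)
        (Finset.mem_univ i)
      linarith
    · have := Finset.single_le_sum (f := fun i => ∑ j, psz (q i j))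
        (fun _ _ => Finset.sum_nonneg fun _ _ => psz_nonneg _) (Finset.mem_univ i)
      linarith
  have hA0 : 0 ≤ A := by linarith
  refine ⟨A, a, ⟨hA1, ha, ?_, ?_, ?_, ?_⟩⟩
  · intro σ y
    rw [pi_norm_le_iff_of_nonneg (by positivity)]
    intro i
    exact (eval_le_psz (hF i) σ y).trans (mul_le_mul_of_nonneg_right (hAF i) (by positivity))
  · intro σ y
    rcases eq_or_ne y 0 with rfl | hy
    · rw [norm_zero, zero_pow (by omega)]
      positivity
    have hy0 : 0 < ‖y‖ := norm_pos_iff.mpr hy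
    have h3 : ‖y‖ ^ (c + d) ≤ A * (‖y‖ ^ c * ‖actC σ F y‖) := by
      obtain ⟨i, hi⟩ : ∃ i, ‖y i‖ = ‖y‖ := by
        by_contra hcon
        push Not at hcon
        have : ‖y‖ < ‖y‖ := by
          conv_lhs => rw [Pi.norm_def]
          have h4 : ∀ i, ‖y i‖₊ < ‖y‖₊ := by
            intro i
            have h5 := norm_le_pi_norm y i
            exact lt_of_le_of_ne h5 fun h6 => hcon i (congrArg NNReal.toReal h6)
          have h5 : (Finset.univ.sup fun i => ‖y i‖₊) < ‖y‖₊ := by
            rw [Finset.sup_lt_iff]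
            · exact fun i _ => h4 i
            · exact nnnorm_pos.mpr hy
          exact h5
        exact lt_irrefl _ this
      rw [← hi, ← norm_pow]
      have h4 : y i ^ (c + d) = ∑ j, eval₂ σ y (q i j) * actC σ F y j := by
        have h5 := congrArg (eval₂Hom σ y) (hqs i)
        rw [map_pow, map_sum, eval₂Hom_X'] at h5
        rw [h5]
        refine Finset.sum_congr rfl fun j _ => ?_
        rw [map_mul]
        rfl
      rw [h4, hi]
      refine (norm_sum_le _ _).trans ?_
      have h6 : ∀ j ∈ (Finset.univ : Finset (Fin (N + 1))),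
          ‖eval₂ σ y (q i j) * actC σ F y j‖ ≤ psz (q i j) * (‖y‖ ^ c * ‖actC σ F y‖) := by
        intro j _
        rw [norm_mul, ← mul_assoc]
        exact mul_le_mul (eval_le_psz (hq i j) σ y) (norm_le_pi_norm _ j) (norm_nonneg _)
          (mul_nonneg (psz_nonneg _) (by positivity))
      refine (Finset.sum_le_sum h6).trans ?_
      rw [← Finset.sum_mul]
      exact mul_le_mul_of_nonneg_right (hAq i) (by positivity)
    have h4 : ‖y‖ ^ c * ‖y‖ ^ d ≤ ‖y‖ ^ c * (A * ‖actC σ F y‖) := by
      rw [← pow_add]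
      refine h3.trans (le_of_eq (by ring))
    exact le_of_mul_le_mul_left h4 (by positivity)
  · intro L _ _ _ v z
    exact nmf_le fun i => v_eval_le v (hF i) (hint i) z
  · intro L _ _ _ v z
    rcases eq_or_ne z 0 with rfl | hz
    · have h0 : nmf v (0 : Fin (N + 1) → L) = 0 := by
        apply le_antisymm
        · exact nmf_le fun i => by simp
        · exact nmf_nonneg _ _
      rw [h0, zero_pow (by omega), mul_zero]
      exact nmf_nonneg _ _
    have hz0 := nmf_pos v hz
    obtain ⟨i, hi⟩ : ∃ i, nmf v z = v (z i) := by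
      obtain ⟨i, hi⟩ := exists_eq_ciSup_of_finite (f := fun i => v (z i))
      exact ⟨i, hi.symm⟩
    have h4 : (a : L) * z i ^ (c + d) = ∑ j, aeval z (C (a : K) * q i j) * act F z j := by
      have h5 := congrArg (aeval z) (hqs i)
      rw [map_pow, map_sum, aeval_X] at h5
      rw [h5, Finset.mul_sum]
      refine Finset.sum_congr rfl fun j _ => ?_
      rw [map_mul, map_mul, aeval_C, map_natCast, mul_assoc]
      rfl
    have h6 : v ((a : L) * z i ^ (c + d)) ≤ nmf v z ^ c * nmf v (act F z) := by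
      rw [h4]
      refine v_sum_le v _ _ (mul_nonneg (pow_nonneg hz0.le _) (nmf_nonneg _ _)) fun j _ => ?_
      rw [map_mul]
      refine mul_le_mul (v_eval_le v ?_ (hqi i j) z) (le_nmf _ _ j) (v_nonneg _ _)
        (pow_nonneg hz0.le _)
      have h7 := (isHomogeneous_C (Fin (N + 1)) (a : K)).mul (hq i j)
      rwa [zero_add] at h7
    rw [map_mul, map_pow, ← hi, pow_add] at h6
    have h7 : nmf v z ^ c * (v (a : L) * nmf v z ^ d) ≤ nmf v z ^ c * nmf v (act F z) :=
      le_trans (le_of_eq (by ring)) h6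
    exact le_of_mul_le_mul_left h7 (by positivity)

end

end Pool.Agent.W238.Leh
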