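import Mathlib
import Pool.Agent.W238.Leh.Local

/-!
Canonical heights.
-/

set_option autoImplicit false
set_option linter.unusedSectionVars false

namespace Pool.Agent.W238.Leh

open NumberField Module MvPolynomial Filter Topology

noncomputable section

variable {K : Type} [Field K] [NumberField K] {N : ℕ}
variable {L : Type} [Field L] [NumberField L] [Algebra K L]

/-- the embedding of the base field belonging to an infinite place -/
def bemb (K : Type) [Field K] [Algebra K L] (w : InfinitePlace L) : K →+* ℂ :=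
  w.embedding.comp (algebraMap K L)

/-- the complex vector belonging to an infinite place -/
def cvec (w : InfinitePlace L) (z : Fin (N + 1) → L) : Fin (N + 1) → ℂ :=
  fun i => w.embedding (z i)

lemma norm_cvec (w : InfinitePlace L) (z : Fin (N + 1) → L) : ‖cvec w z‖ = nmi w z := by
  apply le_antisymm
  · rw [pi_norm_le_iff_of_nonneg (nmi_nonneg w z)]
    intro i
    rw [cvec, InfinitePlace.norm_embedding_eq]
    exact le_nmi w z i
  · refine nmi_le fun i => ?_
    rw [← InfinitePlace.norm_embedding_eq]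
    exact norm_le_pi_norm (cvec w z) i

lemma eval_cvec (w : InfinitePlace L) (z : Fin (N + 1) → L) (p : MvPolynomial (Fin (N + 1)) K) :
    eval₂ (bemb K w) (cvec w z) p = w.embedding (aeval z p) := by
  rw [map_aeval]
  rfl

lemma actC_cvec (w : InfinitePlace L) (z : Fin (N + 1) → L)
    (F : Fin (N + 1) → MvPolynomial (Fin (N + 1)) K) :
    actC (bemb K w) F (cvec w z) = cvec w (act F z) := by
  funext i
  exact eval_cvec w z (F i)

variable {F : Fin (N + 1) → MvPolynomial (Fin (N + 1)) K} {d a : ℕ} {A : ℝ}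

lemma Bds.upi (h : Bds F d A a) (w : InfinitePlace L) (z : Fin (N + 1) → L) :
    nmi w (act F z) ≤ A * nmi w z ^ d := by
  rw [← norm_cvec, ← norm_cvec, ← actC_cvec]
  exact h.upC _ _

lemma Bds.loi (h : Bds F d A a) (w : InfinitePlace L) (z : Fin (N + 1) → L) :
    nmi w z ^ d ≤ A * nmi w (act F z) := by
  rw [← norm_cvec, ← norm_cvec, ← actC_cvec]
  exact h.loC _ _

lemma Bds.act_ne_zero (h : Bds F d A a) {z : Fin (N + 1) → L} (hz : z ≠ 0) :
    act F z ≠ 0 := by
  intro h0
  obtain ⟨w⟩ : Nonempty (InfinitePlace L) := inferInstance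
  have h1 := h.loi w z
  rw [h0] at h1
  have h2 : nmi w (0 : Fin (N + 1) → L) = 0 := by
    apply le_antisymm
    · exact nmi_le fun i => by simp
    · exact nmi_nonneg _ _
  rw [h2, mul_zero] at h1
  have h3 := nmi_pos w hz
  have : 0 < nmi w z ^ d := by positivity
  linarith

lemma Bds.iter_ne_zero (h : Bds F d A a) {z : Fin (N + 1) → L} (hz : z ≠ 0) (n : ℕ) :
    (act F)^[n] z ≠ 0 := by
  induction n with
  | zero => exact hz
  | succ n ih =>
    rw [Function.iterate_succ_apply']
    exact h.act_ne_zero ih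

lemma w_natCast (w : InfinitePlace L) (k : ℕ) : w (k : L) = k := by
  rw [← InfinitePlace.norm_embedding_eq, map_natCast]
  simp

/-- the constant in the height comparison -/
def hC (A : ℝ) (a : ℕ) : ℝ := Real.log A + Real.log a

lemma Bds.hC_nonneg (h : Bds F d A a) : 0 ≤ hC A a :=
  add_nonneg (Real.log_nonneg h.hA) (Real.log_nonneg (by exact_mod_cast h.ha))

lemma Bds.height_upper (h : Bds F d A a) {z : Fin (N + 1) → L} (hz : z ≠ 0) :
    Height.logHeight (act F z) ≤ d * Height.logHeight z + finrank ℚ L * hC A a := by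
  have hz' := h.act_ne_zero hz
  have hA := h.hA
  have hla : 0 ≤ Real.log a := Real.log_nonneg (by exact_mod_cast h.ha)
  refine (HasGS.height hz').le ((HasGS.height hz).const_mul d) ?_ ?_
  · intro w
    have h3 := Real.log_le_log (nmi_pos w hz') (h.upi w z)
    have h4 := nmi_pos w hz
    rw [Real.log_mul (by linarith) (by positivity), Real.log_pow] at h3
    unfold hC
    linarith
  · intro v
    have h3 := Real.log_le_log (nmf_pos v hz') (h.upf L v z)
    rwa [Real.log_pow] at h3

lemma Bds.height_lower (h : Bds F d A a) {z : Fin (N + 1) → L} (hz : z ≠ 0) :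
    d * Height.logHeight z ≤ Height.logHeight (act F z) + finrank ℚ L * hC A a := by
  have hz' := h.act_ne_zero hz
  have hA := h.hA
  have ha : 1 ≤ a := h.ha
  have haL : (a : L) ≠ 0 := by
    have : a ≠ 0 := by omega
    exact_mod_cast this
  have h1 := (HasGS.height hz').add ((HasGS.prod haL).const_mul (-1))
  rw [mul_zero, add_zero] at h1
  refine ((HasGS.height hz).const_mul d).le h1 ?_ ?_
  · intro w
    have h4 := nmi_pos w hz
    have h5 := nmi_pos w hz'
    have h3 := Real.log_le_log (by positivity) (h.loi w z)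
    rw [Real.log_mul (by linarith) (by positivity), Real.log_pow] at h3
    rw [w_natCast]
    unfold hC
    linarith
  · intro v
    have h4 := nmf_pos v hz
    have hva : 0 < v (a : L) := FinitePlace.pos_iff.mpr haL
    have h3 := Real.log_le_log (by positivity) (h.lof L v z)
    rw [Real.log_mul hva.ne' (by positivity), Real.log_pow] at h3
    linarith

/-- the canonical height, normalised to be absolute -/
def canH (F : Fin (N + 1) → MvPolynomial (Fin (N + 1)) K) (d : ℕ) (x : Fin (N + 1) → L) : ℝ :=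
  limUnder atTop fun n : ℕ => Height.logHeight ((act F)^[n] x) / ((finrank ℚ L : ℝ) * (d : ℝ) ^ n)

lemma finrank_pos' : (0 : ℝ) < finrank ℚ L := by exact_mod_cast (finrank_pos : 0 < finrank ℚ L)

lemma Bds.exists_canon (h : Bds F d A a) (hd : 2 ≤ d) {z : Fin (N + 1) → L} (hz : z ≠ 0) :
    ∃ H : ℝ, Tendsto (fun n : ℕ => Height.logHeight ((act F)^[n] z) /
      ((finrank ℚ L : ℝ) * (d : ℝ) ^ n)) atTop (𝓝 H) ∧
      |Height.logHeight z / finrank ℚ L - H| ≤ hC A a := by
  have hD := finrank_pos' (L := L)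
  have hC0 := h.hC_nonneg
  have hd' : (2 : ℝ) ≤ d := by exact_mod_cast hd
  set f : ℕ → ℝ := fun n => Height.logHeight ((act F)^[n] z) /
      ((finrank ℚ L : ℝ) * (d : ℝ) ^ n) with hf
  have hstep : ∀ n, dist (f n) (f (n + 1)) ≤ hC A a / 2 * (1 / 2) ^ n := by
    intro n
    have hn := h.iter_ne_zero hz n
    have h1 := h.height_upper hn
    have h2 := h.height_lower hn
    rw [← Function.iterate_succ_apply' (act F) n z] at h1 h2
    have hdn : (0 : ℝ) < (d : ℝ) ^ (n + 1) := by positivity
    have e1 : f n - f (n + 1) = (d * Height.logHeight ((act F)^[n] z) -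
        Height.logHeight ((act F)^[n + 1] z)) / ((finrank ℚ L : ℝ) * (d : ℝ) ^ (n + 1)) := by
      simp only [hf]
      field_simp
      ring
    rw [Real.dist_eq, e1, abs_div, abs_of_pos (show (0 : ℝ) < (finrank ℚ L : ℝ) *
      (d : ℝ) ^ (n + 1) by positivity), div_le_iff₀ (by positivity)]
    have h3 : |(d : ℝ) * Height.logHeight ((act F)^[n] z) -
        Height.logHeight ((act F)^[n + 1] z)| ≤ finrank ℚ L * hC A a := by
      rw [abs_le]
      constructor <;> linarith
    refine h3.trans ?_
    have h4 : (1 : ℝ) ≤ (1 / 2) ^ (n + 1) * (d : ℝ) ^ (n + 1) := by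
      rw [← mul_pow]
      exact one_le_pow₀ (by linarith)
    calc (finrank ℚ L : ℝ) * hC A a = finrank ℚ L * hC A a * 1 := by ring
      _ ≤ finrank ℚ L * hC A a * ((1 / 2) ^ (n + 1) * (d : ℝ) ^ (n + 1)) :=
          mul_le_mul_of_nonneg_left h4 (by positivity)
      _ = _ := by ring
  have hcau : CauchySeq f := cauchySeq_of_le_geometric (1 / 2) (hC A a / 2) (by norm_num) hstep
  obtain ⟨H, hH⟩ := cauchySeq_tendsto_of_complete hcau
  refine ⟨H, hH, ?_⟩
  have h5 := dist_le_of_le_geometric_of_tendsto₀ (1 / 2) (hC A a / 2) (by norm_num) hstep hH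
  have e2 : f 0 = Height.logHeight z / finrank ℚ L := by
    simp [hf]
  rw [e2, Real.dist_eq] at h5
  refine h5.trans (le_of_eq ?_)
  norm_num
  ring

lemma Bds.canH_tendsto (h : Bds F d A a) (hd : 2 ≤ d) {z : Fin (N + 1) → L} (hz : z ≠ 0) :
    Tendsto (fun n : ℕ => Height.logHeight ((act F)^[n] z) /
      ((finrank ℚ L : ℝ) * (d : ℝ) ^ n)) atTop (𝓝 (canH F d z)) := by
  obtain ⟨H, hH, _⟩ := h.exists_canon hd hz
  exact tendsto_nhds_limUnder ⟨H, hH⟩

lemma Bds.abs_canH (h : Bds F d A a) (hd : 2 ≤ d) {z : Fin (N + 1) → L} (hz : z ≠ 0) :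
    |Height.logHeight z / finrank ℚ L - canH F d z| ≤ hC A a := by
  obtain ⟨H, hH, h1⟩ := h.exists_canon hd hz
  rwa [tendsto_nhds_unique (h.canH_tendsto hd hz) hH]

lemma Bds.canH_nonneg (h : Bds F d A a) (hd : 2 ≤ d) {z : Fin (N + 1) → L} (hz : z ≠ 0) :
    0 ≤ canH F d z := by
  refine ge_of_tendsto' (h.canH_tendsto hd hz) fun n => ?_
  have := Height.logHeight_nonneg ((act F)^[n] z)
  positivity

lemma Bds.canH_act (h : Bds F d A a) (hd : 2 ≤ d) {z : Fin (N + 1) → L} (hz : z ≠ 0) :
    canH F d (act F z) = d * canH F d z := by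
  have h1 := h.canH_tendsto hd (h.act_ne_zero hz)
  have h2 := ((h.canH_tendsto hd hz).comp (tendsto_add_atTop_nat 1)).const_mul (d : ℝ)
  refine tendsto_nhds_unique h1 (h2.congr fun n => ?_)
  have hd' : (0 : ℝ) < d := by
    have : 0 < d := by omega
    exact_mod_cast this
  have hD := finrank_pos' (L := L)
  simp only [Function.comp_apply, Function.iterate_succ_apply]
  field_simp
  ring

lemma Bds.canH_iter (h : Bds F d A a) (hd : 2 ≤ d) {z : Fin (N + 1) → L} (hz : z ≠ 0) (n : ℕ) :
    canH F d ((act F)^[n] z) = d ^ n * canH F d z := by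
  induction n with
  | zero => simp
  | succ n ih =>
    rw [Function.iterate_succ_apply', h.canH_act hd (h.iter_ne_zero hz n), ih, pow_succ]
    ring

lemma Bds.logHeight_le (h : Bds F d A a) (hd : 2 ≤ d) {z : Fin (N + 1) → L} (hz : z ≠ 0) :
    Height.logHeight z ≤ finrank ℚ L * (canH F d z + hC A a) := by
  have h1 := h.abs_canH hd hz
  have hD := finrank_pos' (L := L)
  rw [abs_le] at h1
  have h2 : Height.logHeight z / finrank ℚ L ≤ canH F d z + hC A a := by linarith [h1.2]
  rw [div_le_iff₀ hD] at h2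
  linarith

lemma Bds.HL_le (h : Bds F d A a) (hd : 2 ≤ d) (l : List ℕ) {z : Fin (N + 1) → L} (hz : z ≠ 0) :
    HL F l z ≤ finrank ℚ L * (ldeg d l * canH F d z + hC A a * l.sum) := by
  induction l generalizing z with
  | nil => simp [HL, ldeg]
  | cons r l ih =>
    rw [HL, ldeg, List.sum_cons]
    have h1 := ih (h.act_ne_zero hz)
    rw [h.canH_act hd hz] at h1
    have h2 := mul_le_mul_of_nonneg_left (h.logHeight_le hd hz) (Nat.cast_nonneg (α := ℝ) r)
    push_cast
    calc _ ≤ (r : ℝ) * (finrank ℚ L * (canH F d z + hC A a)) +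
          finrank ℚ L * (ldeg d l * (d * canH F d z) + hC A a * l.sum) := by
            push_cast at h1 h2 ⊢
            linarith
      _ = _ := by push_cast; ring

end

end Pool.Agent.W238.Leh
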