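import Mathlib
import Pool.Agent.W238.Leh.Forms

/-!
Hilbert functions of finite sets of points.
-/

set_option autoImplicit false
set_option linter.unusedSectionVars false

namespace Pool.Agent.W238.Leh

open Module MvPolynomial

noncomputable section

section minors

variable {L : Type*} [Field L]

/-- linearly independent rows have a nonzero maximal minor -/
lemma exists_minor {ι : Type*} [Fintype ι] {r : ℕ} (φ : Fin r → ι → L)
    (hφ : LinearIndependent L φ) :
    ∃ e : Fin r → ι, (Matrix.of fun j k => φ j (e k)).det ≠ 0 := by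
  classical
  set W : Matrix (Fin r) ι L := Matrix.of φ with hW
  have h1 : W.rank = r := by
    have h2 : LinearIndependent L W.row := hφ
    rw [h2.rank_matrix, Fintype.card_fin]
  rw [Matrix.rank_eq_finrank_span_cols] at h1
  have htop : Submodule.span L (Set.range W.col) = ⊤ := by
    apply Submodule.eq_top_of_finrank_eq
    rw [h1, finrank_fin_fun]
  obtain ⟨b, hb, hspan, hli⟩ := exists_linearIndependent L (Set.range W.col)
  have hfin : b.Finite := hli.setFinite
  have : Fintype b := hfin.fintype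
  have hcard : Fintype.card b = r := by
    have h3 := finrank_span_set_eq_card hli
    rw [hspan, htop, finrank_top, finrank_fin_fun, Set.toFinset_card] at h3
    exact h3.symm
  have eqv : Fin r ≃ b := (Fintype.equivFinOfCardEq hcard).symm
  have hmem : ∀ k : Fin r, ∃ i, W.col i = (eqv k : Fin r → L) := fun k => hb (eqv k).2
  choose e he using hmem
  refine ⟨e, ?_⟩
  have hcols : LinearIndependent L (Matrix.of fun j k => φ j (e k)).col := by
    have h4 : (Matrix.of fun j k => φ j (e k)).col = fun k => (eqv k : Fin r → L) := by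
      funext k
      rw [← he k]
      rfl
    rw [h4]
    exact hli.comp eqv eqv.injective
  rw [Matrix.linearIndependent_cols_iff_isUnit, Matrix.isUnit_iff_isUnit_det] at hcols
  exact hcols.ne_zero

/-- choose linearly independent vectors from a spanning set -/
lemma exists_indep {V : Type*} [AddCommGroup V] [Module L V] [FiniteDimensional L V]
    (t : Set V) {r : ℕ} (hr : r ≤ finrank L (Submodule.span L t)) :
    ∃ φ : Fin r → V, (∀ j, φ j ∈ t) ∧ LinearIndependent L φ := by
  classical
  obtain ⟨b, hb, hspan, hli⟩ := exists_linearIndependent L t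
  have hfin : b.Finite := hli.setFinite
  have : Fintype b := hfin.fintype
  have hcard : r ≤ Fintype.card b := by
    have h3 := finrank_span_set_eq_card hli
    rw [hspan] at h3
    rw [h3, Set.toFinset_card] at hr
    exact hr
  have e1 : Fin (Fintype.card b) ≃ b := (Fintype.equivFin b).symm
  set f : Fin r → b := fun j => e1 (Fin.castLE hcard j) with hf
  have hinj : Function.Injective f := fun i j h => Fin.castLE_injective hcard (e1.injective h)
  exact ⟨fun j => (f j : V), fun j => hb (f j).2, hli.comp f hinj⟩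

end minors

variable {K : Type*} [Field K] {L : Type*} [Field L] [Algebra K L] {N : ℕ}
variable {ι : Type*} [Fintype ι]

/-- evaluations of the forms of degree `m` at a family of points -/
def EL (K : Type*) [Field K] [Algebra K L] (p : ι → Fin (N + 1) → L) (m : ℕ) :
    Submodule L (ι → L) :=
  Submodule.span L {v | ∃ φ : MvPolynomial (Fin (N + 1)) K, φ.IsHomogeneous m ∧
    v = fun i => aeval (p i) φ}

lemma one_mem_EL (p : ι → Fin (N + 1) → L) : (fun _ => (1 : L)) ∈ EL K p 0 :=
  Submodule.subset_span ⟨1, isHomogeneous_one _ _, by simp⟩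

lemma mul_mem_EL {p : ι → Fin (N + 1) → L} {m : ℕ} {v : ι → L} (hv : v ∈ EL K p m)
    (t : Fin (N + 1)) : (fun i => p i t * v i) ∈ EL K p (m + 1) := by
  refine Submodule.span_induction (p := fun v _ => (fun i => p i t * v i) ∈ EL K p (m + 1))
    ?_ ?_ ?_ ?_ hv
  · rintro _ ⟨φ, hφ, rfl⟩
    refine Submodule.subset_span ⟨φ * X t, hφ.mul (isHomogeneous_X _ _), ?_⟩
    funext i
    rw [map_mul, aeval_X, mul_comm]
  · have : (fun i => p i t * (0 : ι → L) i) = 0 := by
      funext i
      simp
    rw [this]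
    exact Submodule.zero_mem _
  · intro x y _ _ hx hy
    have : (fun i => p i t * (x + y) i) = (fun i => p i t * x i) + fun i => p i t * y i := by
      funext i
      simp [mul_add]
    rw [this]
    exact Submodule.add_mem _ hx hy
  · intro a x _ hx
    have : (fun i => p i t * (a • x) i) = a • fun i => p i t * x i := by
      funext i
      simp [mul_left_comm]
    rw [this]
    exact Submodule.smul_mem _ _ hx

lemma EL_mono {p : ι → Fin (N + 1) → L} {a₀ : Fin (N + 1)} (hp : ∀ i, p i a₀ = 1) (m : ℕ) :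
    EL K p m ≤ EL K p (m + 1) := by
  intro v hv
  have := mul_mem_EL hv a₀
  simp only [hp, one_mul] at this
  exact this

lemma EL_le {p : ι → Fin (N + 1) → L} {a₀ : Fin (N + 1)} (hp : ∀ i, p i a₀ = 1) {k m : ℕ}
    (h : k ≤ m) : EL K p k ≤ EL K p m := monotone_nat_of_le_succ (EL_mono hp) h

lemma finrank_EL_le {p : ι → Fin (N + 1) → L} {a₀ : Fin (N + 1)} (hp : ∀ i, p i a₀ = 1)
    (m : ℕ) : finrank L (EL K p m) ≤ (m + 1) ^ N := by
  classical
  set g : ({t : Fin (N + 1) // t ≠ a₀} → Fin (m + 1)) → ι → L :=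
    fun e i => ∏ t : {t : Fin (N + 1) // t ≠ a₀}, (p i t) ^ (e t : ℕ) with hg
  have h1 : EL K p m ≤ Submodule.span L (Set.range g) := by
    unfold EL
    rw [Submodule.span_le]
    rintro _ ⟨φ, hφ, rfl⟩
    have h2 : (fun i => aeval (p i) φ) = ∑ s ∈ φ.support, (algebraMap K L (φ.coeff s)) •
        (fun i => ∏ t, (p i t) ^ (s t)) := by
      funext i
      rw [Finset.sum_apply, aeval_def, eval₂_eq']
      rfl
    rw [SetLike.mem_coe, h2]
    refine Submodule.sum_mem _ fun s hs => Submodule.smul_mem _ _ (Submodule.subset_span ?_)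
    have h3 : ∀ t, s t < m + 1 := by
      intro t
      have h4 := hφ (mem_support_iff.mp hs)
      have h5 : s.degree = m := by
        rw [← h4, Finsupp.degree_eq_weight_one]
        rfl
      have h6 : s t ≤ s.degree := by
        rw [Finsupp.degree_eq_sum]
        exact Finset.single_le_sum (fun _ _ => Nat.zero_le _) (Finset.mem_univ t)
      omega
    refine ⟨fun t => ⟨s t, h3 t⟩, ?_⟩
    funext i
    simp only [hg]
    rw [Fintype.prod_eq_mul_prod_subtype_ne (fun t => p i t ^ s t) a₀, hp i, one_pow, one_mul]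
  refine (Submodule.finrank_mono h1).trans ((finrank_range_le_card g).trans (le_of_eq ?_))
  rw [Fintype.card_fun, Fintype.card_fin]
  congr 1
  simp

/-- forms separating one point from the others -/
lemma exists_sep {p : ι → Fin (N + 1) → L} {a₀ : Fin (N + 1)} (hp : ∀ i, p i a₀ = 1)
    (hinj : Function.Injective p) (i₀ : ι) (U : Finset ι) (hU : i₀ ∉ U) :
    ∃ v ∈ EL K p U.card, v i₀ ≠ 0 ∧ ∀ j ∈ U, v j = 0 := by
  classical
  induction U using Finset.induction_on with
  | empty => exact ⟨_, one_mem_EL p, one_ne_zero, by simp⟩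
  | insert j U hj ih =>
    obtain ⟨v, hv, hv0, hvU⟩ := ih fun h => hU (Finset.mem_insert_of_mem h)
    have hne : p i₀ ≠ p j := by
      intro h
      have := hinj h
      rw [this] at hU
      exact hU (Finset.mem_insert_self _ _)
    obtain ⟨t, ht⟩ : ∃ t, p i₀ t ≠ p j t := Function.ne_iff.mp hne
    rw [Finset.card_insert_of_notMem hj]
    refine ⟨(fun i => p i t * v i) - (p j t) • v, Submodule.sub_mem _ (mul_mem_EL hv t)
      (Submodule.smul_mem _ _ (EL_mono hp _ hv)), ?_, ?_⟩
    · simp only [Pi.sub_apply, Pi.smul_apply, smul_eq_mul]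
      rw [← sub_mul]
      exact mul_ne_zero (sub_ne_zero.mpr ht) hv0
    · intro k hk
      simp only [Pi.sub_apply, Pi.smul_apply, smul_eq_mul]
      rcases Finset.mem_insert.mp hk with rfl | hk
      · ring
      · rw [hvU k hk]
        ring

lemma le_finrank_EL {p : ι → Fin (N + 1) → L} {a₀ : Fin (N + 1)} (hp : ∀ i, p i a₀ = 1)
    (hinj : Function.Injective p) (k : ℕ) :
    min (Fintype.card ι) (k + 1) ≤ finrank L (EL K p k) := by
  classical
  obtain ⟨T, _, hT⟩ := Finset.exists_subset_card_eq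
    (s := (Finset.univ : Finset ι)) (n := min (Fintype.card ι) (k + 1))
    (by rw [Finset.card_univ]; exact min_le_left _ _)
  have h1 : ∀ i : T, ∃ v ∈ EL K p k, v i ≠ 0 ∧ ∀ j ∈ T.erase (i : ι), v j = 0 := by
    intro i
    obtain ⟨v, hv, hv0, hvU⟩ := exists_sep (K := K) hp hinj (i : ι) (T.erase (i : ι))
      (Finset.notMem_erase _ _)
    refine ⟨v, EL_le hp ?_ hv, hv0, hvU⟩
    rw [Finset.card_erase_of_mem i.2, hT]
    have := min_le_right (Fintype.card ι) (k + 1)
    omega
  choose v hv hv0 hvU using h1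
  have hli : LinearIndependent L v := by
    rw [Fintype.linearIndependent_iff]
    intro g hg i
    have h2 := congrFun hg (i : ι)
    rw [Finset.sum_apply, Finset.sum_eq_single i] at h2
    · simp only [Pi.smul_apply, smul_eq_mul, Pi.zero_apply] at h2
      exact (mul_eq_zero.mp h2).resolve_right (hv0 i)
    · intro j _ hji
      simp only [Pi.smul_apply, smul_eq_mul]
      rw [hvU j (i : ι) (Finset.mem_erase.mpr ⟨fun h => hji (Subtype.ext h.symm), i.2⟩),
        mul_zero]
    · intro h
      exact absurd (Finset.mem_univ i) h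
  have h3 := finrank_span_eq_card hli
  have h4 : Submodule.span L (Set.range v) ≤ EL K p k := by
    rw [Submodule.span_le]
    rintro _ ⟨i, rfl⟩
    exact hv i
  have h5 := Submodule.finrank_mono h4
  rw [h3, Fintype.card_coe, hT] at h5
  exact h5

/-- passing to a subfamily -/
lemma finrank_EL_comp {κ : Type*} [Fintype κ] (p : ι → Fin (N + 1) → L) (e : κ → ι) (m : ℕ) :
    finrank L (EL K (fun k => p (e k)) m) ≤ finrank L (EL K p m) := by
  set R : (ι → L) →ₗ[L] (κ → L) := LinearMap.funLeft L L e with hR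
  have h1 : EL K (fun k => p (e k)) m ≤ (EL K p m).map R := by
    unfold EL
    rw [Submodule.span_le]
    rintro _ ⟨φ, hφ, rfl⟩
    exact ⟨fun i => aeval (p i) φ, Submodule.subset_span ⟨φ, hφ, rfl⟩, rfl⟩
  exact (Submodule.finrank_mono h1).trans (Submodule.finrank_map_le R _)

/-- the complex span of the image of a subspace -/
def EC (τ : L →+* ℂ) (E : Submodule L (ι → L)) : Submodule ℂ (ι → ℂ) :=
  Submodule.span ℂ {v | ∃ u ∈ E, v = fun i => τ (u i)}

lemma finrank_EC_le (τ : L →+* ℂ) (E : Submodule L (ι → L)) :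
    finrank ℂ (EC τ E) ≤ finrank L E := by
  classical
  set b := finBasis L E with hb
  have h1 : EC τ E ≤ Submodule.span ℂ (Set.range fun j => fun i => τ ((b j : ι → L) i)) := by
    unfold EC
    rw [Submodule.span_le]
    rintro _ ⟨u, hu, rfl⟩
    have h2 := b.sum_repr ⟨u, hu⟩
    have h3 : u = ∑ j, b.repr ⟨u, hu⟩ j • (b j : ι → L) := by
      have h5 := congrArg (Subtype.val) h2
      simp only [Submodule.coe_sum, Submodule.coe_smul] at h5
      exact h5.symm
    have h4 : (fun i => τ (u i)) = ∑ j, τ (b.repr ⟨u, hu⟩ j) •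
        (fun i => τ ((b j : ι → L) i)) := by
      funext i
      conv_lhs => rw [h3]
      rw [Finset.sum_apply, Finset.sum_apply, map_sum]
      refine Finset.sum_congr rfl fun j _ => ?_
      simp
    rw [SetLike.mem_coe, h4]
    exact Submodule.sum_mem _ fun j _ => Submodule.smul_mem _ _
      (Submodule.subset_span ⟨j, rfl⟩)
  refine (Submodule.finrank_mono h1).trans ((finrank_range_le_card _).trans ?_)
  rw [Fintype.card_fin]

/-- the growth lemma -/
lemma exists_growth {H : ℕ → ℕ} {n m₀ N s : ℕ} {δ : ℝ} (hδ : 0 < δ)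
    (hδs : (1 + δ) ^ (s + 1) ≤ 2) (hm₀ : 1 ≤ m₀)
    (hmono : Monotone H) (hub : ∀ k, H k ≤ (k + 1) ^ N) (hlb : ∀ k, min n (k + 1) ≤ H k)
    (hn : 2 * (m₀ + 1) ^ (N * (s + 1)) < n ^ s) :
    ∃ m, m₀ ≤ m ∧ δ / (2 * (1 + δ)) * (m * H m) ≤
      ((∑ k ∈ Finset.range m, (H m - H k) : ℕ) : ℝ) := by
  by_contra hcon
  push Not at hcon
  have hn1 : 1 ≤ n := by
    rcases Nat.eq_zero_or_pos n with h | h
    · rw [h] at hn
      rcases Nat.eq_zero_or_pos s with h' | h'
      · rw [h'] at hn
        have : 1 ≤ (m₀ + 1) ^ (N * (0 + 1)) := Nat.one_le_pow _ _ (by omega)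
        simp at hn
      · rw [zero_pow (by omega)] at hn
        omega
    · exact h
  have hstep : ∀ m, m₀ ≤ m → (H (2 * m) : ℝ) ≤ (1 + δ) * H m := by
    intro m hm
    have h1 := hcon (2 * m) (by omega)
    have h2 : m * (H (2 * m) - H m) ≤ ∑ k ∈ Finset.range (2 * m), (H (2 * m) - H k) := by
      calc m * (H (2 * m) - H m) = ∑ _k ∈ Finset.range m, (H (2 * m) - H m) := by
            rw [Finset.sum_const, Finset.card_range, smul_eq_mul]
        _ ≤ ∑ k ∈ Finset.range m, (H (2 * m) - H k) := by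
            refine Finset.sum_le_sum fun k hk => ?_
            have := hmono (Finset.mem_range.mp hk).le
            omega
        _ ≤ _ := Finset.sum_le_sum_of_subset_of_nonneg
            (Finset.range_mono (by omega)) (fun _ _ _ => Nat.zero_le _)
    have h3 : ((m * (H (2 * m) - H m) : ℕ) : ℝ) ≤
        ((∑ k ∈ Finset.range (2 * m), (H (2 * m) - H k) : ℕ) : ℝ) := by exact_mod_cast h2
    have h4 : H m ≤ H (2 * m) := hmono (by omega)
    rw [Nat.cast_mul, Nat.cast_sub h4] at h3
    have h5 : (m : ℝ) * (H (2 * m) - H m) < δ / (2 * (1 + δ)) * ((2 * m : ℕ) * H (2 * m)) :=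
      lt_of_le_of_lt h3 h1
    have hm0 : (0 : ℝ) < m := by
      have : 0 < m := by omega
      exact_mod_cast this
    have h6 : δ / (2 * (1 + δ)) * ((2 * m : ℕ) * H (2 * m)) =
        m * (δ / (1 + δ) * H (2 * m)) := by
      push_cast
      field_simp
    rw [h6] at h5
    have h7 : ((H (2 * m) : ℝ) - H m) < δ / (1 + δ) * H (2 * m) :=
      lt_of_mul_lt_mul_left h5 hm0.le
    have h8 : δ / (1 + δ) = 1 - 1 / (1 + δ) := by field_simp; ring
    rw [h8] at h7
    have h9 : (1 / (1 + δ)) * H (2 * m) < H m := by linarith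
    have h10 : (H (2 * m) : ℝ) / (1 + δ) < H m := by
      rw [div_eq_mul_one_div, mul_comm]
      exact h9
    rw [div_lt_iff₀ (by linarith)] at h10
    linarith
  have hiter : ∀ i : ℕ, (H (2 ^ i * m₀) : ℝ) ≤ (1 + δ) ^ i * H m₀ := by
    intro i
    induction i with
    | zero => simp
    | succ i ih =>
      have h1 := hstep (2 ^ i * m₀) (Nat.le_mul_of_pos_left _ (by positivity))
      have h2 : 2 * (2 ^ i * m₀) = 2 ^ (i + 1) * m₀ := by ring
      rw [h2] at h1
      calc _ ≤ (1 + δ) * H (2 ^ i * m₀) := h1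
        _ ≤ (1 + δ) * ((1 + δ) ^ i * H m₀) := mul_le_mul_of_nonneg_left ih (by linarith)
        _ = _ := by ring
  set i := Nat.clog 2 n with hi
  have hi1 : n ≤ 2 ^ i := Nat.le_pow_clog (by norm_num) n
  have hi2 : 2 ^ i ≤ 2 * n := by
    rcases Nat.lt_or_ge 1 n with h | h
    · have h1 := Nat.pow_pred_clog_lt_self (by norm_num : 1 < 2) h
      have h2 : 0 < Nat.clog 2 n := Nat.clog_pos (by norm_num) h
      rw [← hi] at h1 h2
      have h3 : 2 ^ i = 2 * 2 ^ (i.pred) := by
        conv_lhs => rw [← Nat.succ_pred_eq_of_pos h2]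
        rw [pow_succ]
        ring
      omega
    · have h1 : n = 1 := by omega
      rw [hi, h1]
      simp
  have h1 : (n : ℝ) ≤ (1 + δ) ^ i * H m₀ := by
    have h2 := hlb (2 ^ i * m₀)
    have h3 : n ≤ 2 ^ i * m₀ + 1 := by
      have : 2 ^ i * 1 ≤ 2 ^ i * m₀ := Nat.mul_le_mul_left _ hm₀
      omega
    rw [min_eq_left h3] at h2
    have h4 : (n : ℝ) ≤ H (2 ^ i * m₀) := by exact_mod_cast h2
    exact h4.trans (hiter i)
  have h2 : (n : ℝ) ^ (s + 1) ≤ 2 * n * ((m₀ + 1 : ℕ) : ℝ) ^ (N * (s + 1)) := by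
    calc (n : ℝ) ^ (s + 1) ≤ ((1 + δ) ^ i * H m₀) ^ (s + 1) :=
          pow_le_pow_left₀ (by positivity) h1 _
      _ = ((1 + δ) ^ (s + 1)) ^ i * (H m₀ : ℝ) ^ (s + 1) := by
          rw [mul_pow, ← pow_mul, ← pow_mul, mul_comm i (s + 1)]
      _ ≤ 2 ^ i * (((m₀ + 1) ^ N : ℕ) : ℝ) ^ (s + 1) := by
          have h3 : (H m₀ : ℝ) ≤ (((m₀ + 1) ^ N : ℕ) : ℝ) := by exact_mod_cast hub m₀
          gcongr
      _ ≤ (2 * n) * (((m₀ + 1) ^ N : ℕ) : ℝ) ^ (s + 1) := by
          have h4 : ((2 : ℝ) ^ i) ≤ 2 * n := by exact_mod_cast hi2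
          gcongr
      _ = _ := by
          push_cast
          rw [← pow_mul]
  have h3 : (n : ℝ) ^ s ≤ 2 * ((m₀ + 1 : ℕ) : ℝ) ^ (N * (s + 1)) := by
    have hn0 : (0 : ℝ) < n := by exact_mod_cast hn1
    have h4 : (n : ℝ) * (n : ℝ) ^ s ≤ n * (2 * ((m₀ + 1 : ℕ) : ℝ) ^ (N * (s + 1))) := by
      calc (n : ℝ) * (n : ℝ) ^ s = (n : ℝ) ^ (s + 1) := by rw [pow_succ]; ring
        _ ≤ _ := h2
        _ = _ := by ring
    exact le_of_mul_le_mul_left h4 hn0
  have h4 : n ^ s ≤ 2 * (m₀ + 1) ^ (N * (s + 1)) := by exact_mod_cast h3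
  omega

end

end Pool.Agent.W238.Leh
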