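import Mathlib

/-!
Smallness of interpolation determinants at points of a small polydisc.
-/

set_option autoImplicit false
set_option linter.unusedSectionVars false

namespace Pool.Agent.W238.Leh

open Module Polynomial

noncomputable section

variable {N n : ℕ}

/-- restriction of a polynomial to the complex line through the centre and a point -/
def lineP (c : Fin N → ℂ) (ξ : Fin N → ℂ) (p : MvPolynomial (Fin N) ℂ) : ℂ[X] :=
  MvPolynomial.aeval (fun t => C (c t) + X * C (ξ t)) p

lemma eval_lineP (c ξ : Fin N → ℂ) (p : MvPolynomial (Fin N) ℂ) (z : ℂ) :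
    (lineP c ξ p).eval z = MvPolynomial.eval (fun t => c t + z * ξ t) p := by
  unfold lineP
  induction p using MvPolynomial.induction_on with
  | C a => simp
  | add p q hp hq => rw [map_add, eval_add, hp, hq, map_add]
  | mul_X p t hp => rw [map_mul, eval_mul, hp, map_mul, MvPolynomial.aeval_X,
      MvPolynomial.eval_X, eval_add, eval_mul, eval_C, eval_C, eval_X, mul_comm z]

/-- a filtration compatible with the coordinates of the points -/
structure Filt (q : Fin n → Fin N → ℂ) (E : ℕ → Submodule ℂ (Fin n → ℂ)) : Prop where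
  one : (fun _ => (1 : ℂ)) ∈ E 0
  mono : ∀ k, E k ≤ E (k + 1)
  mul : ∀ k t v, v ∈ E k → (fun i => q i t * v i) ∈ E (k + 1)

lemma coeff_mem {q : Fin n → Fin N → ℂ} {E : ℕ → Submodule ℂ (Fin n → ℂ)} (hE : Filt q E)
    {c : Fin N → ℂ} {ρ : ℂ} (ξ : Fin n → Fin N → ℂ)
    (hξ : ∀ i t, ξ i t = ρ * (q i t - c t)) (p : MvPolynomial (Fin N) ℂ) (k : ℕ) :
    (fun i => (lineP c (ξ i) p).coeff k) ∈ E k := by
  induction p using MvPolynomial.induction_on generalizing k with
  | C a =>
    have h1 : ∀ i, lineP c (ξ i) (MvPolynomial.C a) = C a := by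
      intro i
      simp [lineP]
    simp only [h1, coeff_C]
    split_ifs with hk
    · have : (fun _ : Fin n => a) = a • (fun _ : Fin n => (1 : ℂ)) := by
        funext i
        simp
      rw [this, hk]
      exact Submodule.smul_mem _ _ hE.one
    · exact Submodule.zero_mem _
  | add p p' hp hp' =>
    have h1 : (fun i => (lineP c (ξ i) (p + p')).coeff k) =
        (fun i => (lineP c (ξ i) p).coeff k) + fun i => (lineP c (ξ i) p').coeff k := by
      funext i
      simp [lineP]
    rw [h1]
    exact Submodule.add_mem _ (hp k) (hp' k)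
  | mul_X p t hp =>
    have h0 : ∀ i, lineP c (ξ i) (p * MvPolynomial.X t) =
        C (c t) * lineP c (ξ i) p + X * (C (ξ i t) * lineP c (ξ i) p) := by
      intro i
      simp only [lineP, map_mul, MvPolynomial.aeval_X]
      ring
    rcases k with _ | k
    · have h1 : (fun i => (lineP c (ξ i) (p * MvPolynomial.X t)).coeff 0) =
          c t • fun i => (lineP c (ξ i) p).coeff 0 := by
        funext i
        rw [h0]
        simp
      rw [h1]
      exact Submodule.smul_mem _ _ (hp 0)
    · have h1 : (fun i => (lineP c (ξ i) (p * MvPolynomial.X t)).coeff (k + 1)) =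
          c t • (fun i => (lineP c (ξ i) p).coeff (k + 1)) +
          (ρ • (fun i => q i t * (lineP c (ξ i) p).coeff k) -
            (ρ * c t) • fun i => (lineP c (ξ i) p).coeff k) := by
        funext i
        rw [h0]
        simp only [coeff_add, coeff_C_mul, coeff_X_mul, hξ, Pi.add_apply, Pi.sub_apply,
          Pi.smul_apply, smul_eq_mul]
        ring
      rw [h1]
      refine Submodule.add_mem _ (Submodule.smul_mem _ _ (hp _)) (Submodule.sub_mem _
        (Submodule.smul_mem _ _ (hE.mul _ _ _ (hp k))) (Submodule.smul_mem _ _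
          (hE.mono _ (hp k))))

lemma Filt.le {q : Fin n → Fin N → ℂ} {E : ℕ → Submodule ℂ (Fin n → ℂ)} (hE : Filt q E)
    {k l : ℕ} (h : k ≤ l) : E k ≤ E l := monotone_nat_of_le_succ hE.mono h

/-- the count of small indices -/
lemma exists_level {m : ℕ} (r : Fin n → ℕ) (H : ℕ → ℕ)
    (h : ∑ j, r j < ∑ k ∈ Finset.range m, (n - H k)) :
    ∃ k, H k < (Finset.univ.filter fun j => r j ≤ k).card := by
  by_contra hcon
  push Not at hcon
  have h1 : ∑ k ∈ Finset.range m, (n - H k) ≤
      ∑ k ∈ Finset.range m, (Finset.univ.filter fun j : Fin n => k < r j).card := by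
    refine Finset.sum_le_sum fun k _ => ?_
    have h2 := Finset.card_filter_add_card_filter_not (s := (Finset.univ : Finset (Fin n)))
      (fun j => r j ≤ k)
    simp only [not_le] at h2
    rw [Finset.card_univ, Fintype.card_fin] at h2
    have := hcon k
    omega
  have h2 : ∑ k ∈ Finset.range m, (Finset.univ.filter fun j : Fin n => k < r j).card ≤
      ∑ j, r j := by
    simp only [Finset.card_filter]
    rw [Finset.sum_comm]
    refine Finset.sum_le_sum fun j _ => ?_
    rw [← Finset.card_filter]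
    calc _ ≤ (Finset.range (r j)).card := by
          apply Finset.card_le_card
          intro k hk
          rw [Finset.mem_filter] at hk
          exact Finset.mem_range.mpr hk.2
      _ = r j := Finset.card_range _
  omega

/-- the determinant vanishes when too many rows are in a small subspace -/
lemma det_eq_zero_of_level {E : Submodule ℂ (Fin n → ℂ)} (u : Fin n → Fin n → ℂ)
    (J : Finset (Fin n)) (hJ : ∀ j ∈ J, u j ∈ E) (hc : finrank ℂ E < J.card) :
    (Matrix.of u).det = 0 := by
  by_contra hdet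
  have h1 : LinearIndependent ℂ (Matrix.of u).row := by
    apply Matrix.linearIndependent_rows_of_det_ne_zero
    exact hdet
  have h2 : LinearIndependent ℂ (fun j : J => u j) :=
    h1.comp (fun j : J => (j : Fin n)) Subtype.val_injective
  have h3 := finrank_span_eq_card h2
  have h4 : Submodule.span ℂ (Set.range fun j : J => u j) ≤ E := by
    rw [Submodule.span_le]
    rintro _ ⟨j, rfl⟩
    exact hJ j j.2
  have h5 := Submodule.finrank_mono h4
  rw [h3, Fintype.card_coe] at h5
  omega

/-- order of vanishing of the determinant along the lines -/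
lemma X_pow_dvd_det {q : Fin n → Fin N → ℂ} {E : ℕ → Submodule ℂ (Fin n → ℂ)} (hE : Filt q E)
    {c : Fin N → ℂ} {ρ : ℂ} (ξ : Fin n → Fin N → ℂ)
    (hξ : ∀ i t, ξ i t = ρ * (q i t - c t)) (P : Fin n → MvPolynomial (Fin N) ℂ) (m : ℕ) :
    X ^ (∑ k ∈ Finset.range m, (n - finrank ℂ (E k))) ∣
      (Matrix.of fun j i => lineP c (ξ i) (P j)).det := by
  classical
  set D := ∑ j, ∑ i, (lineP c (ξ i) (P j)).natDegree with hD
  have hdeg : ∀ j i, (lineP c (ξ i) (P j)).natDegree < D + 1 := by
    intro j i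
    have h1 : (lineP c (ξ i) (P j)).natDegree ≤ ∑ i, (lineP c (ξ i) (P j)).natDegree :=
      Finset.single_le_sum (f := fun i => (lineP c (ξ i) (P j)).natDegree)
        (fun _ _ => Nat.zero_le _) (Finset.mem_univ i)
    have h2 : ∑ i, (lineP c (ξ i) (P j)).natDegree ≤ D :=
      Finset.single_le_sum (f := fun j => ∑ i, (lineP c (ξ i) (P j)).natDegree)
        (fun _ _ => Nat.zero_le _) (Finset.mem_univ j)
    omega
  have hrow : (fun j => (fun i => lineP c (ξ i) (P j))) =
      fun j => ∑ k : Fin (D + 1), (X ^ (k : ℕ) : ℂ[X]) •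
        (fun i => C ((lineP c (ξ i) (P j)).coeff k)) := by
    funext j i
    rw [Finset.sum_apply]
    simp only [Pi.smul_apply, smul_eq_mul]
    conv_lhs => rw [(lineP c (ξ i) (P j)).as_sum_range' (D + 1) (hdeg j i)]
    rw [Finset.sum_range]
    refine Finset.sum_congr rfl fun k _ => ?_
    rw [← C_mul_X_pow_eq_monomial, mul_comm]
  have hdet : (Matrix.of fun j i => lineP c (ξ i) (P j)).det =
      (Matrix.detRowAlternating (R := ℂ[X]) (n := Fin n)).toMultilinearMap
        (fun j => (fun i => lineP c (ξ i) (P j))) := rfl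
  rw [hdet, hrow, MultilinearMap.map_sum]
  refine Finset.dvd_sum fun r _ => ?_
  have h1 : (Matrix.detRowAlternating (R := ℂ[X]) (n := Fin n)).toMultilinearMap
      (fun j => (X ^ (r j : ℕ) : ℂ[X]) • (fun i => C ((lineP c (ξ i) (P j)).coeff (r j)))) =
      (∏ j, (X ^ (r j : ℕ) : ℂ[X])) • (Matrix.detRowAlternating (R := ℂ[X]) (n := Fin n)).toMultilinearMap
      (fun j => (fun i => C ((lineP c (ξ i) (P j)).coeff (r j)))) :=
    MultilinearMap.map_smul_univ _ _ _
  rw [h1, Finset.prod_pow_eq_pow_sum, smul_eq_mul]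
  by_cases hr : ∑ j, (r j : ℕ) < ∑ k ∈ Finset.range m, (n - finrank ℂ (E k))
  · obtain ⟨k, hk⟩ := exists_level (fun j => (r j : ℕ)) (fun k => finrank ℂ (E k)) hr
    have h2 : (Matrix.detRowAlternating (R := ℂ[X]) (n := Fin n)).toMultilinearMap
        (fun j => (fun i => C ((lineP c (ξ i) (P j)).coeff (r j)))) = 0 := by
      have h3 : (Matrix.detRowAlternating (R := ℂ[X]) (n := Fin n)).toMultilinearMap
          (fun j => (fun i => C ((lineP c (ξ i) (P j)).coeff (r j)))) =
          C ((Matrix.of fun j i => (lineP c (ξ i) (P j)).coeff (r j)).det) := by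
        rw [RingHom.map_det]
        rfl
      rw [h3, det_eq_zero_of_level (E := E k) _ _ _ hk, map_zero]
      intro j hj
      rw [Finset.mem_filter] at hj
      exact hE.le hj.2 (coeff_mem hE ξ hξ (P j) (r j))
    rw [h2, mul_zero]
    exact dvd_zero _
  · push Not at hr
    exact (pow_dvd_pow X hr).mul_right _

lemma det_norm_le (M : Matrix (Fin n) (Fin n) ℂ) {B : ℝ} (hB : ∀ i j, ‖M i j‖ ≤ B) :
    ‖M.det‖ ≤ n.factorial * B ^ n := by
  rw [Matrix.det_apply]
  refine (norm_sum_le _ _).trans ?_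
  have h2 : ∀ σ ∈ (Finset.univ : Finset (Equiv.Perm (Fin n))),
      ‖Equiv.Perm.sign σ • ∏ i, M (σ i) i‖ ≤ B ^ n := by
    intro σ _
    have h3 : ‖Equiv.Perm.sign σ • ∏ i, M (σ i) i‖ = ∏ i, ‖M (σ i) i‖ := by
      rw [Units.smul_def, zsmul_eq_mul, norm_mul, norm_prod]
      rcases Int.units_eq_one_or (Equiv.Perm.sign σ) with h | h
      · simp [h]
      · simp [h]
    rw [h3]
    calc ∏ i, ‖M (σ i) i‖ ≤ ∏ _i : Fin n, B :=
          Finset.prod_le_prod (fun _ _ => norm_nonneg _) fun i _ => hB _ _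
      _ = B ^ n := by simp
  refine (Finset.sum_le_sum h2).trans (le_of_eq ?_)
  rw [Finset.sum_const, Finset.card_univ, Fintype.card_perm, Fintype.card_fin, nsmul_eq_mul]

/-- **smallness of the interpolation determinant** -/
theorem det_small {q : Fin n → Fin N → ℂ} {E : ℕ → Submodule ℂ (Fin n → ℂ)} (hE : Filt q E)
    {c : Fin N → ℂ} {ρ : ℝ} (hρ : 0 < ρ) (hρ1 : ρ < 1) (hq : ∀ i t, ‖q i t - c t‖ ≤ ρ)
    (hc : ∀ t, ‖c t‖ ≤ 1) (P : Fin n → MvPolynomial (Fin N) ℂ) {B : ℝ}
    (hB : ∀ j (y : Fin N → ℂ), (∀ t, ‖y t‖ ≤ 2) → ‖MvPolynomial.eval y (P j)‖ ≤ B) (m : ℕ) :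
    ‖(Matrix.of fun j i => MvPolynomial.eval (q i) (P j)).det‖ ≤
      n.factorial * B ^ n * ρ ^ (∑ k ∈ Finset.range m, (n - finrank ℂ (E k))) := by
  set ξ : Fin n → Fin N → ℂ := fun i t => (ρ : ℂ)⁻¹ * (q i t - c t) with hξ
  set T := ∑ k ∈ Finset.range m, (n - finrank ℂ (E k)) with hT
  have hρc : (ρ : ℂ) ≠ 0 := by exact_mod_cast hρ.ne'
  have hξ1 : ∀ i t, ‖ξ i t‖ ≤ 1 := by
    intro i t
    simp only [hξ]
    rw [norm_mul, norm_inv, Complex.norm_real, Real.norm_of_nonneg hρ.le]
    have := hq i t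
    rw [inv_mul_le_iff₀ hρ, mul_one]
    exact this
  obtain ⟨Q, hQ⟩ := X_pow_dvd_det hE ξ (fun i t => rfl) P m
  rw [← hT] at hQ
  have heval : ∀ z : ℂ, (Matrix.of fun j i => lineP c (ξ i) (P j)).det.eval z =
      (Matrix.of fun j i => MvPolynomial.eval (fun t => c t + z * ξ i t) (P j)).det := by
    intro z
    rw [← coe_evalRingHom, RingHom.map_det]
    congr 1
    ext j i
    simp [eval_lineP]
  have hbd : ∀ z : ℂ, ‖z‖ ≤ 1 → ‖(Matrix.of fun j i => lineP c (ξ i) (P j)).det.eval z‖ ≤
      n.factorial * B ^ n := by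
    intro z hz
    rw [heval]
    refine det_norm_le _ fun j i => hB j _ fun t => ?_
    refine (norm_add_le _ _).trans ?_
    rw [norm_mul]
    have h1 := hc t
    have h2 := mul_le_mul hz (hξ1 i t) (norm_nonneg _) zero_le_one
    linarith
  have hQbd : ‖Q.eval (ρ : ℂ)‖ ≤ n.factorial * B ^ n := by
    refine Complex.norm_le_of_forall_mem_frontier_norm_le (U := Metric.ball (0 : ℂ) 1)
      (f := fun z => Q.eval z) Metric.isBounded_ball ?_ ?_ ?_
    · exact (Polynomial.differentiable Q).diffContOnCl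
    · intro z hz
      rw [frontier_ball (0 : ℂ) one_ne_zero, mem_sphere_zero_iff_norm] at hz
      have h1 := hbd z hz.le
      rw [hQ, eval_mul, eval_pow, eval_X, norm_mul, norm_pow, hz, one_pow, one_mul] at h1
      exact h1
    · apply subset_closure
      rw [mem_ball_zero_iff, Complex.norm_real, Real.norm_of_nonneg hρ.le]
      exact hρ1
  have hfin : (Matrix.of fun j i => MvPolynomial.eval (q i) (P j)).det =
      (ρ : ℂ) ^ T * Q.eval (ρ : ℂ) := by
    have h1 := heval (ρ : ℂ)
    rw [hQ, eval_mul, eval_pow, eval_X] at h1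
    rw [h1]
    congr 1
    ext j i
    simp only [Matrix.of_apply]
    congr 1
    congr 1
    funext t
    simp only [hξ]
    rw [mul_inv_cancel_left₀ hρc]
    ring
  rw [hfin, norm_mul, norm_pow, Complex.norm_real, Real.norm_of_nonneg hρ.le, mul_comm]
  exact mul_le_mul_of_nonneg_right hQbd (by positivity)

end

end Pool.Agent.W238.Leh
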