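import Mathlib
import Pool.Agent.W238.Leh.Canon
import Pool.Agent.W238.Leh.Van
import Pool.Agent.W238.Leh.Hilb

/-!
The number of points of small canonical height in a small archimedean region.
-/

set_option autoImplicit false
set_option linter.unusedSectionVars false

namespace Pool.Agent.W238.Leh

open NumberField Module MvPolynomial

noncomputable section

variable {K : Type} [Field K] [NumberField K] {N : ℕ}
variable {L : Type} [Field L] [NumberField L] [Algebra K L]

lemma det_le_inf (w : InfinitePlace L) {r : ℕ} (M : Matrix (Fin r) (Fin r) L) (b : Fin r → ℝ)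
    (h : ∀ j k, w (M j k) ≤ b k) : w M.det ≤ r.factorial * ∏ k, b k := by
  rw [Matrix.det_apply]
  have h1 : w (∑ σ : Equiv.Perm (Fin r), Equiv.Perm.sign σ • ∏ i, M (σ i) i) ≤
      ∑ σ : Equiv.Perm (Fin r), w (Equiv.Perm.sign σ • ∏ i, M (σ i) i) := by
    rw [← InfinitePlace.norm_embedding_eq, map_sum]
    refine (norm_sum_le _ _).trans (le_of_eq ?_)
    refine Finset.sum_congr rfl fun σ _ => ?_
    rw [InfinitePlace.norm_embedding_eq]
  refine h1.trans ?_
  have h2 : ∀ σ ∈ (Finset.univ : Finset (Equiv.Perm (Fin r))),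
      w (Equiv.Perm.sign σ • ∏ i, M (σ i) i) ≤ ∏ k, b k := by
    intro σ _
    have h3 : w (Equiv.Perm.sign σ • ∏ i, M (σ i) i) = ∏ i, w (M (σ i) i) := by
      rw [Units.smul_def, zsmul_eq_mul, map_mul, map_prod]
      rcases Int.units_eq_one_or (Equiv.Perm.sign σ) with h | h
      · simp [h]
      · rw [h, Units.val_neg, Units.val_one, Int.cast_neg, Int.cast_one]
        have : w (-1 : L) = 1 := by
          rw [← InfinitePlace.norm_embedding_eq, map_neg, norm_neg, map_one, norm_one]
        rw [this, one_mul]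
    rw [h3]
    exact Finset.prod_le_prod (fun i _ => by positivity) fun i _ => h (σ i) i
  refine (Finset.sum_le_sum h2).trans (le_of_eq ?_)
  rw [Finset.sum_const, Finset.card_univ, Fintype.card_perm, Fintype.card_fin, nsmul_eq_mul]

lemma det_le_fin (v : FinitePlace L) {r : ℕ} (M : Matrix (Fin r) (Fin r) L) (b : Fin r → ℝ)
    (hb : ∀ k, 0 ≤ b k) (h : ∀ j k, v (M j k) ≤ b k) : v M.det ≤ ∏ k, b k := by
  rw [Matrix.det_apply]
  refine v_sum_le v _ _ (Finset.prod_nonneg fun i _ => hb i) fun σ _ => ?_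
  have h3 : v (Equiv.Perm.sign σ • ∏ i, M (σ i) i) = ∏ i, v (M (σ i) i) := by
    rw [Units.smul_def, zsmul_eq_mul, map_mul, map_prod]
    rcases Int.units_eq_one_or (Equiv.Perm.sign σ) with h | h
    · simp [h]
    · rw [h, Units.val_neg, Units.val_one, Int.cast_neg, Int.cast_one]
      have : v (-1 : L) = 1 := by
        rw [← FinitePlace.norm_embedding_eq, map_neg, norm_neg, FinitePlace.norm_embedding_eq,
          map_one]
      rw [this, one_mul]
  rw [h3]
  exact Finset.prod_le_prod (fun i _ => v_nonneg v _) fun i _ => h (σ i) i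

lemma filt_EC {r : ℕ} (τ : L →+* ℂ) {p : Fin r → Fin (N + 1) → L} {a₀ : Fin (N + 1)}
    (hp : ∀ i, p i a₀ = 1) :
    Filt (fun i t => τ (p i t)) (fun k => EC τ (EL K p k)) := by
  refine ⟨?_, ?_, ?_⟩
  · exact Submodule.subset_span ⟨_, one_mem_EL p, by simp⟩
  · intro k
    unfold EC
    apply Submodule.span_mono
    rintro _ ⟨u, hu, rfl⟩
    exact ⟨u, EL_mono hp k hu, rfl⟩
  · intro k t v hv
    refine Submodule.span_induction
      (p := fun v _ => (fun i => τ (p i t) * v i) ∈ EC τ (EL K p (k + 1))) ?_ ?_ ?_ ?_ hv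
    · rintro _ ⟨u, hu, rfl⟩
      refine Submodule.subset_span ⟨_, mul_mem_EL hu t, ?_⟩
      funext i
      rw [map_mul]
    · have : (fun i => τ (p i t) * (0 : Fin r → ℂ) i) = 0 := by
        funext i
        simp
      rw [this]
      exact Submodule.zero_mem _
    · intro x y _ _ hx hy
      have : (fun i => τ (p i t) * (x + y) i) =
          (fun i => τ (p i t) * x i) + fun i => τ (p i t) * y i := by
        funext i
        simp [mul_add]
      rw [this]
      exact Submodule.add_mem _ hx hy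
    · intro a x _ hx
      have : (fun i => τ (p i t) * (a • x) i) = a • fun i => τ (p i t) * x i := by
        funext i
        simp [mul_left_comm]
      rw [this]
      exact Submodule.smul_mem _ _ hx

variable {F : Fin (N + 1) → MvPolynomial (Fin (N + 1)) K} {d a c : ℕ} {A : ℝ}

/-- complex bound for the elements of `GG` -/
lemma Bds.GG_complex (h : Bds F d A a) (hd : 2 ≤ d) (σ : K →+* ℂ) (l : List ℕ)
    {φ : MvPolynomial (Fin (N + 1)) K} (hφ : φ ∈ GG F l) (y : Fin (N + 1) → ℂ) :
    ‖eval₂ σ y φ‖ ≤ (A * ‖y‖) ^ ldeg d l := by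
  let _ : Algebra K ℂ := σ.toAlgebra
  have h1 := abs_le_wt (K := K) (M := ℂ)
    (f := ({ toFun := fun x => ‖x‖, map_zero' := norm_zero, map_one' := norm_one,
             map_mul' := norm_mul } : ℂ →*₀ ℝ)) (fun x => norm_nonneg x) (F := F)
    (ν := fun y => ‖y‖) (fun x j => norm_le_pi_norm x j) (fun x => norm_nonneg x) l hφ y
  refine le_trans ?_ (h1.trans (wt_le hd h.hA (fun y => norm_nonneg y) (h.upC σ) l y))
  exact le_of_eq rfl

/-- the forms of degree `m` are spanned by the elements of `GG` -/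
lemma EL_le_span (hF : ∀ i, (F i).IsHomogeneous d)
    (hc : ∀ m, c + d ≤ m → ∀ p : MvPolynomial (Fin (N + 1)) K, p.IsHomogeneous m →
      p ∈ Ideal.span (Set.range F)) {ι : Type*} (p : ι → Fin (N + 1) → L) (l : List ℕ)
    (hl : LOK c l) :
    EL K p (ldeg d l) ≤ Submodule.span L {v | ∃ φ ∈ GG F l, v = fun i => aeval (p i) φ} := by
  unfold EL
  rw [Submodule.span_le]
  rintro _ ⟨φ, hφ, rfl⟩
  have h1 := homSub_le_span hF hc l hl hφ
  rw [SetLike.mem_coe]
  refine Submodule.span_induction (p := fun x _ => (fun i => aeval (p i) x) ∈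
    Submodule.span L {v | ∃ φ ∈ GG F l, v = fun i => aeval (p i) φ}) ?_ ?_ ?_ ?_ h1
  · intro x hx
    exact Submodule.subset_span ⟨x, hx, rfl⟩
  · have : (fun i => aeval (p i) (0 : MvPolynomial (Fin (N + 1)) K)) = (0 : ι → L) := by
      funext i
      simp
    rw [this]
    exact Submodule.zero_mem _
  · intro x y _ _ hx hy
    have : (fun i => aeval (p i) (x + y)) =
        (fun i => aeval (p i) x) + fun i => aeval (p i) y := by
      funext i
      simp
    rw [this]
    exact Submodule.add_mem _ hx hy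
  · intro b x _ hx
    have : (fun i => aeval (p i) (b • x)) = (algebraMap K L b) • fun i => aeval (p i) x := by
      funext i
      rw [map_smul, Pi.smul_apply, smul_eq_mul, Algebra.smul_def]
    rw [this]
    exact Submodule.smul_mem _ _ hx

lemma log_factorial_le {r m : ℕ} (hr : 1 ≤ r) (h : r ≤ (m + 1) ^ N) :
    Real.log r.factorial ≤ r * (N * Real.log (m + 1)) := by
  have h1 : (r.factorial : ℝ) ≤ (r : ℝ) ^ r := by exact_mod_cast Nat.factorial_le_pow r
  have h2 := Real.log_le_log (by exact_mod_cast Nat.factorial_pos r) h1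
  rw [Real.log_pow] at h2
  have hr' : (0 : ℝ) < r := by exact_mod_cast hr
  have h3 : (r : ℝ) ≤ ((m : ℝ) + 1) ^ N := by exact_mod_cast h
  have h4 := Real.log_le_log hr' h3
  rw [Real.log_pow] at h4
  exact h2.trans (mul_le_mul_of_nonneg_left h4 hr'.le)

/-- **the number of points of small height in a small region** -/
theorem Bds.region (h : Bds F d A a) (hd : 2 ≤ d) (hF : ∀ i, (F i).IsHomogeneous d)
    (hc : ∀ m, c + d ≤ m → ∀ p : MvPolynomial (Fin (N + 1)) K, p.IsHomogeneous m →
      p ∈ Ideal.span (Set.range F))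
    {s : ℕ} {δ : ℝ} (hδ : 0 < δ) (hδs : (1 + δ) ^ (s + 1) ≤ 2)
    {ρ : ℝ} (hρ : 0 < ρ) (hρ1 : ρ < 1)
    (hρA : Real.log A + Real.log (2 * A) + 1 ≤ δ / (2 * (1 + δ)) * Real.log (1 / ρ))
    (w₀ : InfinitePlace L) (cc : Fin (N + 1) → ℂ) (hcc : ∀ t, ‖cc t‖ ≤ 1) (a₀ : Fin (N + 1))
    {ι : Type*} [Fintype ι] (p : ι → Fin (N + 1) → L) (hinj : Function.Injective p)
    (hp : ∀ i, p i a₀ = 1) (hpc : ∀ i t, ‖w₀.embedding (p i t) - cc t‖ ≤ ρ)
    (hH : ∀ i, canH F d (p i) ≤ 1 / (2 * (finrank ℚ L : ℝ)))
    {m₀ : ℕ} (hm₀ : 1 ≤ m₀)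
    (hm : ∀ m : ℕ, m₀ ≤ m → (finrank ℚ L : ℝ) * (hC A a * ((c + d : ℕ) * (1 + Nat.log 2 m : ℕ)) +
      N * Real.log (m + 1)) < m / 2) :
    (Fintype.card ι) ^ s ≤ 2 * (m₀ + 1) ^ (N * (s + 1)) := by
  by_contra hcon
  push Not at hcon
  set n := Fintype.card ι with hn
  have hA := h.hA
  have hD := finrank_pos' (L := L)
  obtain ⟨m, hmm, hgr⟩ := exists_growth (H := fun m => finrank L (EL K p m)) hδ hδs hm₀
    (fun k l hkl => Submodule.finrank_mono (EL_le hp hkl)) (finrank_EL_le hp)
    (le_finrank_EL hp hinj) hcon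
  have hm1 : 1 ≤ m := by omega
  set r := finrank L (EL K p m) with hr
  have hn1 : 1 ≤ n := by
    rcases Nat.eq_zero_or_pos n with h0 | h0
    · exfalso
      rw [h0] at hcon
      rcases Nat.eq_zero_or_pos s with h' | h'
      · rw [h'] at hcon
        have : 1 ≤ (m₀ + 1) ^ (N * (0 + 1)) := Nat.one_le_pow _ _ (by omega)
        simp at hcon
      · rw [zero_pow (by omega)] at hcon
        omega
    · exact h0
  have hr1 : 1 ≤ r := by
    have := le_finrank_EL (K := K) hp hinj m
    rw [← hr, ← hn] at this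
    have h2 : 1 ≤ min n (m + 1) := le_min hn1 (by omega)
    omega
  have hrN : r ≤ (m + 1) ^ N := finrank_EL_le hp m
  obtain ⟨l, hl1, hl2, hl3, hl4⟩ := exists_list (c := c) hd m
  have hspan := EL_le_span hF hc p l hl2
  rw [hl1] at hspan
  obtain ⟨φv, hφt, hφli⟩ := exists_indep (L := L)
    {v : ι → L | ∃ φ ∈ GG F l, v = fun i => aeval (p i) φ} (Submodule.finrank_mono hspan)
  choose φ hφG hφe using hφt
  obtain ⟨e, he⟩ := exists_minor φv hφli
  have hM : (Matrix.of fun j k => φv j (e k)) =
      (Matrix.of fun j k => aeval (p (e k)) (φ j)) := by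
    ext j k
    simp only [Matrix.of_apply]
    rw [hφe j]
  rw [hM] at he
  set M : Matrix (Fin r) (Fin r) L := Matrix.of fun j k => aeval (p (e k)) (φ j) with hMdef
  have hp0 : ∀ i, p i ≠ 0 := by
    intro i h0
    have := hp i
    rw [h0] at this
    simp at this
  have hiter : ∀ i j, (act F)^[j] (p i) ≠ 0 := fun i j => h.iter_ne_zero (hp0 i) j
  -- local bounds
  have hwtpos : ∀ (w : InfinitePlace L) k, 0 < wt (nmi w) (act F) l (p (e k)) :=
    fun w k => wt_pos l fun j => nmi_pos w (hiter _ j)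
  have hwtposf : ∀ (v : FinitePlace L) k, 0 < wt (nmf v) (act F) l (p (e k)) :=
    fun v k => wt_pos l fun j => nmf_pos v (hiter _ j)
  have hinf : ∀ w : InfinitePlace L, Real.log (w M.det) ≤
      ∑ k, Real.log (wt (nmi w) (act F) l (p (e k))) + Real.log r.factorial := by
    intro w
    have h1 : w M.det ≤ r.factorial * ∏ k, wt (nmi w) (act F) l (p (e k)) := by
      apply det_le_inf
      intro j k
      exact abs_le_wt (w.1.toMonoidWithZeroHom) (fun x => w.1.nonneg x)
        (fun x j => le_nmi w x j) (fun x => nmi_nonneg w x) l (hφG j) (p (e k))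
    have h2 : 0 < w M.det := InfinitePlace.pos_iff.mpr he
    have h3 := Real.log_le_log h2 h1
    rw [Real.log_mul (by positivity) (Finset.prod_pos fun k _ => hwtpos w k).ne',
      Real.log_prod (fun k _ => (hwtpos w k).ne')] at h3
    linarith
  have hfin : ∀ v : FinitePlace L, Real.log (v M.det) ≤
      ∑ k, Real.log (wt (nmf v) (act F) l (p (e k))) := by
    intro v
    have h1 : v M.det ≤ ∏ k, wt (nmf v) (act F) l (p (e k)) := by
      apply det_le_fin v _ _ (fun k => (hwtposf v k).le)
      intro j k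
      exact abs_le_wt (v.1.toMonoidWithZeroHom) (fun x => v.1.nonneg x)
        (fun x j => le_nmf v x j) (fun x => nmf_nonneg v x) l (hφG j) (p (e k))
    have h2 : 0 < v M.det := FinitePlace.pos_iff.mpr he
    have h3 := Real.log_le_log h2 h1
    rwa [Real.log_prod (fun k _ => (hwtposf v k).ne')] at h3
  -- the special place
  have hw₀ : Real.log (w₀ M.det) ≤ ∑ k, Real.log (wt (nmi w₀) (act F) l (p (e k))) +
      Real.log r.factorial - r * m := by
    set T := ∑ k ∈ Finset.range m, (r - finrank ℂ (EC w₀.embedding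
      (EL K (fun j => p (e j)) k))) with hT
    have hTge : δ / (2 * (1 + δ)) * (m * r) ≤ (T : ℝ) := by
      refine hgr.trans ?_
      have : ∑ k ∈ Finset.range m, (r - finrank L (EL K p k)) ≤ T := by
        refine Finset.sum_le_sum fun k _ => ?_
        have h1 := finrank_EC_le w₀.embedding (EL K (fun j => p (e j)) k)
        have h2 := finrank_EL_comp (K := K) p e k
        omega
      exact_mod_cast this
    have h1 := det_small (filt_EC (K := K) w₀.embedding (p := fun j => p (e j))
      (a₀ := a₀) (fun i => hp _)) (c := cc) hρ hρ1 (fun i t => hpc (e i) t) hcc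
      (fun j => map (bemb K w₀) (φ j)) (B := (2 * A) ^ m) (by
        intro j y hy
        rw [eval_map]
        have h2 := h.GG_complex hd (bemb K w₀) l (hφG j) y
        rw [hl1] at h2
        refine h2.trans (pow_le_pow_left₀ (by positivity) ?_ _)
        have h3 : ‖y‖ ≤ 2 := (pi_norm_le_iff_of_nonneg (by norm_num)).mpr hy
        nlinarith) m
    rw [← hT] at h1
    have h2 : ‖(Matrix.of fun j i => MvPolynomial.eval (fun t => w₀.embedding (p (e i) t))
        (map (bemb K w₀) (φ j))).det‖ = w₀ M.det := by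
      rw [← InfinitePlace.norm_embedding_eq, RingHom.map_det]
      congr 2
      ext j i
      simp only [Matrix.of_apply, RingHom.mapMatrix_apply, Matrix.map_apply, hMdef]
      rw [eval_map]
      exact eval_cvec w₀ (p (e i)) (φ j)
    rw [h2] at h1
    have h3 : 0 < w₀ M.det := InfinitePlace.pos_iff.mpr he
    have h4 := Real.log_le_log h3 h1
    rw [Real.log_mul (by positivity) (by positivity), Real.log_mul (by positivity)
      (by positivity), Real.log_pow, Real.log_pow, Real.log_pow] at h4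
    have h5 : ∀ k, -(m * Real.log A) ≤ Real.log (wt (nmi w₀) (act F) l (p (e k))) := by
      intro k
      have h6 := le_wt hd hA (fun y => nmi_nonneg w₀ y) (fun x => h.loi w₀ x) l (p (e k))
      rw [hl1] at h6
      have h7 : 1 ≤ nmi w₀ (p (e k)) := by
        have h8 := le_nmi w₀ (p (e k)) a₀
        rw [hp] at h8
        have h9 : w₀ (1 : L) = 1 := by
          rw [← InfinitePlace.norm_embedding_eq, map_one, norm_one]
        rwa [h9] at h8
      have h8 : 1 ≤ A ^ m * wt (nmi w₀) (act F) l (p (e k)) :=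
        (one_le_pow₀ h7).trans h6
      have h9 := Real.log_le_log one_pos h8
      rw [Real.log_one, Real.log_mul (by positivity) (hwtpos w₀ k).ne', Real.log_pow] at h9
      linarith
    have h6 : -(r * (m * Real.log A)) ≤ ∑ k, Real.log (wt (nmi w₀) (act F) l (p (e k))) := by
      have h7 := Finset.sum_le_sum (fun k (_ : k ∈ (Finset.univ : Finset (Fin r))) => h5 k)
      rw [Finset.sum_const, Finset.card_univ, Fintype.card_fin, nsmul_eq_mul] at h7
      linarith
    have h7 : (T : ℝ) * Real.log ρ ≤ -(r * m * (Real.log A + Real.log (2 * A) + 1)) := by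
      have h8 : Real.log ρ = -Real.log (1 / ρ) := by
        rw [one_div, Real.log_inv, neg_neg]
      have h9 : 0 ≤ Real.log (1 / ρ) := by
        apply Real.log_nonneg
        rw [le_div_iff₀ hρ]
        linarith
      have h10 : (r * m : ℝ) * (Real.log A + Real.log (2 * A) + 1) ≤ T * Real.log (1 / ρ) := by
        calc (r * m : ℝ) * (Real.log A + Real.log (2 * A) + 1) ≤
            (r * m) * (δ / (2 * (1 + δ)) * Real.log (1 / ρ)) :=
              mul_le_mul_of_nonneg_left hρA (by positivity)
          _ = (δ / (2 * (1 + δ)) * (m * r)) * Real.log (1 / ρ) := by ring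
          _ ≤ T * Real.log (1 / ρ) := mul_le_mul_of_nonneg_right hTge h9
      rw [h8]
      linarith
    have h11 : (r : ℝ) * (m * Real.log (2 * A)) = r * m * Real.log (2 * A) := by ring
    nlinarith [h4, h6, h7]
  -- the product formula
  have hgs1 : HasGS (fun w => ∑ k, Real.log (wt (nmi w) (act F) l (p (e k))))
      (fun v => ∑ k, Real.log (wt (nmf v) (act F) l (p (e k)))) (∑ k, HL F l (p (e k))) :=
    HasGS.sum Finset.univ fun k _ => HasGS.wt l (hiter (e k))
  have hmain := (HasGS.prod he).le_gain hgs1 (c := Real.log r.factorial) (g := r * m)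
    (by positivity) hinf w₀ hw₀ hfin
  have hHL : ∀ k, HL F l (p (e k)) ≤ m / 2 + finrank ℚ L *
      (hC A a * ((c + d : ℕ) * (1 + Nat.log 2 m : ℕ))) := by
    intro k
    refine (h.HL_le hd l (hp0 (e k))).trans ?_
    rw [hl1, mul_add]
    have h1 : (finrank ℚ L : ℝ) * (m * canH F d (p (e k))) ≤ m / 2 := by
      have h2 := mul_le_mul_of_nonneg_left (hH (e k))
        (show (0 : ℝ) ≤ (finrank ℚ L : ℝ) * m by positivity)
      calc _ = (finrank ℚ L : ℝ) * m * canH F d (p (e k)) := by ring
        _ ≤ _ := h2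
        _ = m / 2 := by field_simp
    have h2 : (l.sum : ℝ) ≤ (c + d : ℕ) * (1 + Nat.log 2 m : ℕ) := by
      have h3 : l.sum ≤ l.length * (c + d) := by
        have := List.sum_le_card_nsmul l (c + d) hl3
        simpa using this
      have h4 : l.length * (c + d) ≤ (c + d) * (1 + Nat.log 2 m) := by
        rw [mul_comm]
        exact Nat.mul_le_mul_left _ hl4
      exact_mod_cast h3.trans h4
    have h3 : (finrank ℚ L : ℝ) * (hC A a * l.sum) ≤
        finrank ℚ L * (hC A a * ((c + d : ℕ) * (1 + Nat.log 2 m : ℕ))) :=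
      mul_le_mul_of_nonneg_left (mul_le_mul_of_nonneg_left h2 h.hC_nonneg) hD.le
    linarith
  have hsum : ∑ k, HL F l (p (e k)) ≤ r * (m / 2 + finrank ℚ L *
      (hC A a * ((c + d : ℕ) * (1 + Nat.log 2 m : ℕ)))) := by
    have h7 := Finset.sum_le_sum (fun k (_ : k ∈ (Finset.univ : Finset (Fin r))) => hHL k)
    rwa [Finset.sum_const, Finset.card_univ, Fintype.card_fin, nsmul_eq_mul] at h7
  have hlf := log_factorial_le (N := N) hr1 hrN
  have hr0 : (0 : ℝ) < r := by exact_mod_cast hr1
  have h8 := mul_le_mul_of_nonneg_left hlf hD.le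
  have h9 := mul_lt_mul_of_pos_left (hm m hmm) hr0
  nlinarith [hmain, hsum, h8, h9]

end

end Pool.Agent.W238.Leh
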