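import Mathlib
import Pool.Agent.W238.Leh.Region

/-!
The number of points of small canonical height, all regions together.
-/

set_option autoImplicit false
set_option linter.unusedSectionVars false

namespace Pool.Agent.W238.Leh

open NumberField Module MvPolynomial Filter Topology

noncomputable section

variable {K : Type} [Field K] [NumberField K] {N : ℕ}
variable {L : Type} [Field L] [NumberField L] [Algebra K L]
variable {F : Fin (N + 1) → MvPolynomial (Fin (N + 1)) K} {d a c : ℕ} {A : ℝ}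

lemma aeval_smul_hom {M : Type*} [Field M] [Algebra K M] {p : MvPolynomial (Fin (N + 1)) K}
    {m : ℕ} (hp : p.IsHomogeneous m)
    (b : M) (z : Fin (N + 1) → M) : aeval (b • z) p = b ^ m * aeval z p := by
  rw [p.as_sum, map_sum, map_sum, Finset.mul_sum]
  refine Finset.sum_congr rfl fun s hs => ?_
  have h1 : ∑ i, s i = m := by
    have := hp (mem_support_iff.mp hs)
    rw [← this]
    have h3 := Finsupp.degree_eq_sum (σ := Fin (N + 1)) s
    rw [← h3, Finsupp.degree_eq_weight_one]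
    rfl
  rw [aeval_monomial, aeval_monomial, Finsupp.prod_fintype _ _ (by simp),
    Finsupp.prod_fintype _ _ (by simp)]
  simp only [Pi.smul_apply, smul_eq_mul, mul_pow]
  rw [Finset.prod_mul_distrib, Finset.prod_pow_eq_pow_sum, h1]
  ring

lemma act_smul {M : Type*} [Field M] [Algebra K M] (hF : ∀ i, (F i).IsHomogeneous d)
    (b : M) (z : Fin (N + 1) → M) :
    act F (b • z) = b ^ d • act F z := by
  funext i
  simp only [act, Pi.smul_apply, smul_eq_mul]
  exact aeval_smul_hom (hF i) b z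

lemma iter_smul {M : Type*} [Field M] [Algebra K M] (hF : ∀ i, (F i).IsHomogeneous d)
    {b : M} (hb : b ≠ 0)
    (z : Fin (N + 1) → M) (n : ℕ) :
    ∃ b' : M, b' ≠ 0 ∧ (act F)^[n] (b • z) = b' • (act F)^[n] z := by
  induction n with
  | zero => exact ⟨b, hb, rfl⟩
  | succ n ih =>
    obtain ⟨b', hb', h⟩ := ih
    refine ⟨b' ^ d, pow_ne_zero _ hb', ?_⟩
    rw [Function.iterate_succ_apply', Function.iterate_succ_apply', h, act_smul hF]

lemma canH_smul (hF : ∀ i, (F i).IsHomogeneous d) {b : L} (hb : b ≠ 0)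
    (z : Fin (N + 1) → L) : canH F d (b • z) = canH F d z := by
  unfold canH
  congr 1
  funext n
  obtain ⟨b', hb', h⟩ := iter_smul hF hb z n
  rw [h, Height.logHeight_smul_eq_logHeight _ hb']

/-- a finite net of the unit disc -/
lemma exists_net {ρ : ℝ} (hρ : 0 < ρ) : ∃ Z : Finset ℂ, (∀ z ∈ Z, ‖z‖ ≤ 1) ∧
    ∀ z : ℂ, ‖z‖ ≤ 1 → ∃ z' ∈ Z, ‖z - z'‖ ≤ ρ := by
  have h1 : IsCompact (Metric.closedBall (0 : ℂ) 1) := isCompact_closedBall _ _
  obtain ⟨t, ht, htf, hcov⟩ := h1.finite_cover_balls hρ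
  refine ⟨htf.toFinset, ?_, ?_⟩
  · intro z hz
    have := ht (htf.mem_toFinset.mp hz)
    simpa using this
  · intro z hz
    have h2 := hcov (show z ∈ Metric.closedBall (0 : ℂ) 1 by simpa using hz)
    simp only [Set.mem_iUnion] at h2
    obtain ⟨z', hz', h3⟩ := h2
    refine ⟨z', htf.mem_toFinset.mpr hz', ?_⟩
    rw [Metric.mem_ball, dist_eq_norm] at h3
    exact h3.le

/-- **count over all regions** -/
theorem Bds.count (h : Bds F d A a) (hd : 2 ≤ d) (hF : ∀ i, (F i).IsHomogeneous d)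
    (hc : ∀ m, c + d ≤ m → ∀ p : MvPolynomial (Fin (N + 1)) K, p.IsHomogeneous m →
      p ∈ Ideal.span (Set.range F)) (s : ℕ) :
    ∃ R : ℕ, ∀ (L : Type) [Field L] [NumberField L] [Algebra K L] (m₀ : ℕ), 1 ≤ m₀ →
    (∀ m : ℕ, m₀ ≤ m → (finrank ℚ L : ℝ) * (hC A a * ((c + d : ℕ) * (1 + Nat.log 2 m : ℕ)) +
      N * Real.log (m + 1)) < m / 2) →
    ∀ (n : ℕ) (x : Fin n → Fin (N + 1) → L), (∀ i, x i ≠ 0) →
      (∀ i j, i ≠ j → ∀ b : L, x i ≠ b • x j) →
      (∀ i, canH F d (x i) ≤ 1 / (2 * (finrank ℚ L : ℝ))) →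
      ∀ b : ℕ, 2 * (m₀ + 1) ^ (N * (s + 1)) < (b + 1) ^ s → n ≤ R * b := by
  classical
  set δ : ℝ := 1 / (2 * (s + 1)) with hδdef
  have hδ : 0 < δ := by positivity
  have hδs : (1 + δ) ^ (s + 1) ≤ 2 := by
    have h1 : (1 + δ) ^ (s + 1) ≤ Real.exp (1 / 2) := by
      have h2 : 1 + δ ≤ Real.exp δ := by
        have := Real.add_one_le_exp δ
        linarith
      calc (1 + δ) ^ (s + 1) ≤ Real.exp δ ^ (s + 1) := pow_le_pow_left₀ (by positivity) h2 _
        _ = Real.exp (1 / 2) := by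
            rw [← Real.exp_nat_mul]
            congr 1
            rw [hδdef]
            push_cast
            field_simp
    have h3 : Real.exp (1 / 2) ≤ 2 := by
      have h4 : Real.exp (1 / 2) * Real.exp (1 / 2) = Real.exp 1 := by
        rw [← Real.exp_add]
        norm_num
      have h5 := Real.exp_one_lt_d9
      have h6 := Real.exp_pos (1 / 2)
      nlinarith
    exact h1.trans h3
  set κ := δ / (2 * (1 + δ)) with hκ
  have hκ0 : 0 < κ := by positivity
  have hA := h.hA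
  set V := (Real.log A + Real.log (2 * A) + 1) / κ with hV
  have hlA : 0 ≤ Real.log A := Real.log_nonneg hA
  have hlA2 : 0 ≤ Real.log (2 * A) := Real.log_nonneg (by linarith)
  have hV0 : 0 < V := by positivity
  set ρ := Real.exp (-V) with hρdef
  have hρ : 0 < ρ := Real.exp_pos _
  have hρ1 : ρ < 1 := by
    rw [hρdef, Real.exp_lt_one_iff]
    linarith
  have hρA : Real.log A + Real.log (2 * A) + 1 ≤ κ * Real.log (1 / ρ) := by
    rw [one_div, Real.log_inv, hρdef, Real.log_exp, neg_neg, hV]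
    rw [mul_div_cancel₀ _ hκ0.ne']
  obtain ⟨Z, hZ1, hZ2⟩ := exists_net hρ
  refine ⟨(N + 1) * Z.card ^ (N + 1), ?_⟩
  intro L _ _ _ m₀ hm₀ hm n x hx0 hxne hxH b hb
  obtain ⟨w₀⟩ : Nonempty (InfinitePlace L) := inferInstance
  -- the coordinate of largest size
  have hmax : ∀ i, ∃ t, w₀ (x i t) = nmi w₀ (x i) := by
    intro i
    obtain ⟨t, ht⟩ := exists_eq_ciSup_of_finite (f := fun t => w₀ (x i t))
    exact ⟨t, ht⟩
  choose t₀ ht₀ using hmax
  have hxt : ∀ i, x i (t₀ i) ≠ 0 := by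
    intro i h0
    have := nmi_pos w₀ (hx0 i)
    rw [← ht₀ i, h0] at this
    simp at this
  set p : Fin n → Fin (N + 1) → L := fun i => (x i (t₀ i))⁻¹ • x i with hp
  have hp1 : ∀ i, p i (t₀ i) = 1 := by
    intro i
    simp only [hp, Pi.smul_apply, smul_eq_mul]
    exact inv_mul_cancel₀ (hxt i)
  have hple : ∀ i t, ‖w₀.embedding (p i t)‖ ≤ 1 := by
    intro i t
    rw [InfinitePlace.norm_embedding_eq]
    simp only [hp, Pi.smul_apply, smul_eq_mul]
    rw [map_mul, map_inv₀, ht₀ i]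
    rw [inv_mul_le_iff₀ (nmi_pos w₀ (hx0 i)), mul_one]
    exact le_nmi _ _ _
  have hz : ∀ i t, ∃ z' : Z, ‖w₀.embedding (p i t) - z'‖ ≤ ρ := by
    intro i t
    obtain ⟨z', hz', h1⟩ := hZ2 _ (hple i t)
    exact ⟨⟨z', hz'⟩, h1⟩
  choose ζ hζ using hz
  set f : Fin n → Fin (N + 1) × (Fin (N + 1) → Z) := fun i => (t₀ i, ζ i) with hf
  by_contra hcon
  push Not at hcon
  have hcard : Fintype.card (Fin (N + 1) × (Fin (N + 1) → Z)) * b < Fintype.card (Fin n) := by
    rw [Fintype.card_prod, Fintype.card_fin, Fintype.card_fun, Fintype.card_fin, Fintype.card_coe,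
      Fintype.card_fin]
    exact hcon
  obtain ⟨y, hy⟩ := Fintype.exists_lt_card_fiber_of_mul_lt_card f hcard
  set S := (Finset.univ.filter fun i => f i = y) with hS
  have hSf : ∀ i : S, t₀ i = y.1 ∧ ζ i = y.2 := by
    intro i
    have h1 := (Finset.mem_filter.mp i.2).2
    simp only [hf] at h1
    exact ⟨congrArg Prod.fst h1, congrArg Prod.snd h1⟩
  have hreg := h.region hd hF hc hδ hδs hρ hρ1 hρA w₀ (fun t => (y.2 t : ℂ))
    (fun t => hZ1 _ (y.2 t).2) y.1 (ι := S) (fun i => p i) ?_ ?_ ?_ ?_ hm₀ hm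
  · rw [Fintype.card_coe] at hreg
    have h1 : (b + 1) ^ s ≤ S.card ^ s := Nat.pow_le_pow_left hy _
    omega
  · intro i j hij
    by_contra hne
    have hne' : (i : Fin n) ≠ j := fun h => hne (Subtype.ext h)
    apply hxne i j hne' (x i (t₀ i) * (x j (t₀ j))⁻¹)
    have h1 : x i (t₀ i) • p i = x i (t₀ i) • p j := by
      simp only at hij
      rw [hij]
    have h2 : x i (t₀ i) • p i = x i := by
      simp only [hp]
      rw [smul_smul, mul_inv_cancel₀ (hxt i), one_smul]
    rw [h2] at h1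
    refine h1.trans ?_
    simp only [hp]
    rw [smul_smul]
  · intro i
    have h1 := hp1 i
    rw [(hSf i).1] at h1
    exact h1
  · intro i t
    have h1 := hζ i t
    rw [(hSf i).2] at h1
    exact h1
  · intro i
    have h1 := canH_smul hF (inv_ne_zero (hxt i)) (x i)
    change canH F d (p i) ≤ _
    rw [show p i = (x i (t₀ i))⁻¹ • x i from rfl, h1]
    exact hxH i

end

end Pool.Agent.W238.Leh
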