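import Mathlib

/-!
Choice of the parameters.
-/

set_option autoImplicit false

namespace Pool.Agent.W238.Leh

open Real

lemma log_le_rpow {x η : ℝ} (hx : 0 ≤ x) (hη : 0 < η) : Real.log x ≤ x ^ η / η :=
  Real.log_le_rpow_div hx hη

/-- the logarithmic error terms are smaller than `m / (2 D)` from `m₀` on -/
lemma exists_m0 (k₀ E₁ E₂ : ℝ) (hk₀ : 1 ≤ k₀) (hE₁ : 0 ≤ E₁) (hE₂ : 0 ≤ E₂) {e : ℝ} (he : 0 < e) :
    ∃ C₂ : ℝ, 1 ≤ C₂ ∧ ∀ D : ℝ, 1 ≤ D → ∃ m₀ : ℕ, 1 ≤ m₀ ∧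
      ((m₀ : ℝ) + 1 ≤ C₂ * D ^ (1 + e)) ∧
      ∀ m : ℕ, m₀ ≤ m →
        (k₀ * D) * (E₁ * ((1 + Nat.log 2 m : ℕ) : ℝ) + E₂ * Real.log (m + 1)) < m / 2 := by
  set η : ℝ := e / (1 + e) with hη
  have hη0 : 0 < η := by positivity
  have hη1 : η < 1 := by
    rw [hη, div_lt_one (by positivity)]
    linarith
  have h1η : 0 < 1 - η := by linarith
  have h1e : (1 - η) * (1 + e) = 1 := by
    rw [hη]
    field_simp
    ring
  set C₃ : ℝ := E₁ * (1 + 2 / η) + E₂ * (2 / η) with hC₃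
  have hC₃0 : 0 ≤ C₃ := by positivity
  -- the error terms
  have herr : ∀ m : ℕ, 1 ≤ m →
      E₁ * ((1 + Nat.log 2 m : ℕ) : ℝ) + E₂ * Real.log (m + 1) ≤ C₃ * (m : ℝ) ^ η := by
    intro m hm
    have hm1 : (1 : ℝ) ≤ m := by exact_mod_cast hm
    have hmη : 1 ≤ (m : ℝ) ^ η := Real.one_le_rpow hm1 hη0.le
    have h1 : ((Nat.log 2 m : ℕ) : ℝ) ≤ 2 / η * (m : ℝ) ^ η := by
      have h2 : ((Nat.log 2 m : ℕ) : ℝ) ≤ Real.logb 2 m := Real.natLog_le_logb m 2
      have h3 : Real.logb 2 m ≤ 2 * Real.log m := by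
        rw [Real.logb, div_le_iff₀ (Real.log_pos (by norm_num))]
        have h4 : (1 : ℝ) / 2 ≤ Real.log 2 := by
          have := Real.log_two_gt_d9
          linarith
        have h5 : 0 ≤ Real.log m := Real.log_nonneg hm1
        nlinarith
      have h4 := log_le_rpow (show (0 : ℝ) ≤ m by linarith) hη0
      calc _ ≤ 2 * Real.log m := h2.trans h3
        _ ≤ 2 * ((m : ℝ) ^ η / η) := by linarith
        _ = _ := by ring
    have h2 : Real.log (m + 1) ≤ 2 / η * (m : ℝ) ^ η := by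
      have h3 := log_le_rpow (show (0 : ℝ) ≤ (m : ℝ) + 1 by linarith) hη0
      have h4 : ((m : ℝ) + 1) ^ η ≤ 2 * (m : ℝ) ^ η := by
        calc ((m : ℝ) + 1) ^ η ≤ (2 * (m : ℝ)) ^ η :=
              Real.rpow_le_rpow (by linarith) (by linarith) hη0.le
          _ = 2 ^ η * (m : ℝ) ^ η := Real.mul_rpow (by norm_num) (by linarith)
          _ ≤ 2 * (m : ℝ) ^ η := by
              apply mul_le_mul_of_nonneg_right _ (by linarith)
              calc (2 : ℝ) ^ η ≤ 2 ^ (1 : ℝ) :=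
                    Real.rpow_le_rpow_of_exponent_le (by norm_num) hη1.le
                _ = 2 := Real.rpow_one 2
      calc Real.log (m + 1) ≤ ((m : ℝ) + 1) ^ η / η := h3
        _ ≤ (2 * (m : ℝ) ^ η) / η := by gcongr
        _ = _ := by ring
    push_cast at h1 ⊢
    have h3 : (1 : ℝ) + (Nat.log 2 m : ℝ) ≤ (1 + 2 / η) * (m : ℝ) ^ η := by linarith
    calc E₁ * (1 + (Nat.log 2 m : ℝ)) + E₂ * Real.log (m + 1) ≤
        E₁ * ((1 + 2 / η) * (m : ℝ) ^ η) + E₂ * (2 / η * (m : ℝ) ^ η) := by gcongr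
      _ = C₃ * (m : ℝ) ^ η := by rw [hC₃]; ring
  set G : ℝ := 2 * k₀ * C₃ + 1 with hG
  have hG1 : 1 ≤ G := by
    rw [hG]
    have : 0 ≤ 2 * k₀ * C₃ := by positivity
    linarith
  refine ⟨G ^ (1 + e) + 2, by
    have : 0 ≤ G ^ (1 + e) := by positivity
    linarith, fun D hD => ?_⟩
  have hDe : 1 ≤ D ^ (1 + e) := Real.one_le_rpow hD (by linarith)
  refine ⟨⌈(G * D) ^ (1 + e)⌉₊, ?_, ?_, ?_⟩
  · rw [Nat.one_le_ceil_iff]
    positivity
  · have h1 := (Nat.ceil_lt_add_one (show 0 ≤ (G * D) ^ (1 + e) by positivity)).le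
    have h3 : (G * D) ^ (1 + e) = G ^ (1 + e) * D ^ (1 + e) :=
      Real.mul_rpow (by linarith) (by linarith)
    have h2 : 0 ≤ G ^ (1 + e) := by positivity
    calc (⌈(G * D) ^ (1 + e)⌉₊ : ℝ) + 1 ≤ (G * D) ^ (1 + e) + 1 + 1 := by linarith
      _ = G ^ (1 + e) * D ^ (1 + e) + 2 := by rw [h3]; ring
      _ ≤ _ := by nlinarith
  · intro m hm
    have hm' : (G * D) ^ (1 + e) ≤ m := (Nat.le_ceil _).trans (by exact_mod_cast hm)
    have hGD : 1 ≤ G * D := by nlinarith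
    have hm1 : (1 : ℝ) ≤ m := (Real.one_le_rpow hGD (by linarith)).trans hm'
    have hm1' : 1 ≤ m := by exact_mod_cast hm1
    have h2 : G * D ≤ (m : ℝ) ^ (1 - η) := by
      have h3 := Real.rpow_le_rpow (by positivity) hm' h1η.le
      rw [← Real.rpow_mul (by positivity), mul_comm (1 + e), h1e, Real.rpow_one] at h3
      exact h3
    have h4 : (m : ℝ) = (m : ℝ) ^ (1 - η) * (m : ℝ) ^ η := by
      rw [← Real.rpow_add (by linarith)]
      ring_nf
      rw [Real.rpow_one]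
    have hmη : 0 < (m : ℝ) ^ η := by positivity
    calc (k₀ * D) * (E₁ * ((1 + Nat.log 2 m : ℕ) : ℝ) + E₂ * Real.log (m + 1)) ≤
        (k₀ * D) * (C₃ * (m : ℝ) ^ η) := mul_le_mul_of_nonneg_left (herr m hm1') (by positivity)
      _ = (2 * k₀ * C₃ * D) * (m : ℝ) ^ η / 2 := by ring
      _ < (G * D) * (m : ℝ) ^ η / 2 := by
          have : 2 * k₀ * C₃ * D < G * D := by
            rw [hG]
            nlinarith
          have := mul_lt_mul_of_pos_right this hmη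
          linarith
      _ ≤ (m : ℝ) ^ (1 - η) * (m : ℝ) ^ η / 2 := by
          have := mul_le_mul_of_nonneg_right h2 hmη.le
          linarith
      _ = m / 2 := by rw [← h4]

end Pool.Agent.W238.Leh
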