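import Mathlib
import Pool.Agent.W238.Leh.Count
import Pool.Agent.W238.Leh.Expo

/-!
Assembly: points of small canonical height over all extensions of the base field.
-/

set_option autoImplicit false
set_option linter.unusedSectionVars false

namespace Pool.Agent.W238.Leh

open NumberField Module MvPolynomial Filter Topology

noncomputable section

variable {K : Type} [Field K] [NumberField K] {N : ℕ}

/-- the conclusion, for the map `F` -/
def Concl (F : Fin (N + 1) → MvPolynomial (Fin (N + 1)) K) (d : ℕ) (ε C : ℝ) : Prop :=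
  ∀ (L : Type) [Field L] [NumberField L] [Algebra K L],
    (∀ (n : ℕ) (x : Fin n → Fin (N + 1) → L), (∀ i, x i ≠ 0) →
      (∀ i j, i ≠ j → ∀ b : L, x i ≠ b • x j) →
      (∀ i, canH F d (x i) ≤ 1 / (C * (finrank K L : ℝ))) →
      (n : ℝ) ≤ C * (finrank K L : ℝ) ^ (N + ε)) ∧
    (∀ x : Fin (N + 1) → L, x ≠ 0 →
      (¬ ∃ m n : ℕ, m ≠ n ∧ ∃ b : L, b ≠ 0 ∧ (act F)^[n] x = b • (act F)^[m] x) →
      Real.exp (-(C * (finrank K L : ℝ) ^ (N + ε))) ≤ canH F d x)

theorem final_int {F : Fin (N + 1) → MvPolynomial (Fin (N + 1)) K} {d : ℕ} (hd : 2 ≤ d)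
    (hF : ∀ i, (F i).IsHomogeneous d) (hint : ∀ i s, IsIntegral ℤ ((F i).coeff s))
    (hmor : ∀ z : Fin (N + 1) → AlgebraicClosure K, (∀ i, aeval z (F i) = 0) → z = 0)
    {ε : ℝ} (hε : 0 < ε) :
    ∃ A a, Bds F d A a ∧ ∃ C : ℝ, 0 < C ∧ Concl F d ε C := by
  classical
  obtain ⟨c, hc0⟩ := exists_mem_span hmor
  have hc : ∀ m, c + d ≤ m → ∀ p : MvPolynomial (Fin (N + 1)) K, p.IsHomogeneous m →
      p ∈ Ideal.span (Set.range F) := fun m hm p hp => hc0 m (by omega) p hp
  obtain ⟨A, a, h⟩ := exists_bds (by omega) hF hint hc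
  refine ⟨A, a, h, ?_⟩
  -- the parameters
  set s : ℕ := ⌈2 * (N : ℝ) / ε⌉₊ + 1 with hs
  have hs1 : (1 : ℝ) ≤ s := by
    rw [hs]
    push_cast
    have : (0 : ℝ) ≤ (⌈2 * (N : ℝ) / ε⌉₊ : ℝ) := by positivity
    linarith
  have hs0 : (0 : ℝ) < s := by linarith
  have hsN : (N : ℝ) / s ≤ ε / 2 := by
    have h1 : 2 * (N : ℝ) / ε ≤ s := by
      rw [hs]
      push_cast
      have := Nat.le_ceil (2 * (N : ℝ) / ε)
      linarith
    rw [div_le_iff₀ hε] at h1
    rw [div_le_iff₀ hs0]
    linarith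
  set e : ℝ := ε / (2 * N + ε) with he
  have hN0 : (0 : ℝ) ≤ N := by positivity
  have he0 : 0 < e := by positivity
  set q : ℝ := N + N / s with hq
  have hq0 : 0 ≤ q := by positivity
  have hqe : (1 + e) * q ≤ N + ε := by
    have h1 : q ≤ N + ε / 2 := by linarith
    have h2 : e * (N + ε / 2) = ε / 2 := by
      rw [he]
      field_simp
    have h3 : (1 + e) * q ≤ (1 + e) * (N + ε / 2) := mul_le_mul_of_nonneg_left h1 (by linarith)
    linarith
  obtain ⟨R, hR⟩ := h.count hd hF hc s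
  set k₀ : ℝ := (finrank ℚ K : ℝ) with hk₀
  have hk1 : 1 ≤ k₀ := by
    rw [hk₀]
    exact_mod_cast (finrank_pos : 0 < finrank ℚ K)
  obtain ⟨C₂, hC₂, hm₀⟩ := exists_m0 k₀ (hC A a * ((c + d : ℕ) : ℝ)) N hk1
    (mul_nonneg h.hC_nonneg (by positivity)) hN0 he0
  set C₅ : ℝ := R * (2 * C₂ ^ q) with hC₅
  have hC₅0 : 0 ≤ C₅ := by positivity
  -- the count
  have hcount : ∀ (L : Type) [Field L] [NumberField L] [Algebra K L] (n : ℕ)
      (x : Fin n → Fin (N + 1) → L), (∀ i, x i ≠ 0) →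
      (∀ i j, i ≠ j → ∀ b : L, x i ≠ b • x j) →
      (∀ i, canH F d (x i) ≤ 1 / (2 * k₀ * (finrank K L : ℝ))) →
      (n : ℝ) ≤ C₅ * (finrank K L : ℝ) ^ (N + ε) := by
    intro L _ _ _ n x hx0 hxne hxH
    have hfin : (finrank ℚ L : ℝ) = k₀ * finrank K L := by
      rw [hk₀]
      exact_mod_cast (finrank_mul_finrank ℚ K L).symm
    have hDpos := finrank_pos' (L := L)
    have hD0 : 0 < finrank K L := by
      rcases Nat.eq_zero_or_pos (finrank K L) with h0 | h0
      · rw [hfin, h0] at hDpos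
        simp at hDpos
      · exact h0
    have hD1 : (1 : ℝ) ≤ finrank K L := by exact_mod_cast hD0
    obtain ⟨m₀, hm1, hm2, hm3⟩ := hm₀ (finrank K L) hD1
    set Q : ℝ := 2 * ((m₀ : ℝ) + 1) ^ (N * (s + 1)) with hQ
    have hQ0 : 0 < Q := by positivity
    set b : ℕ := ⌊Q ^ (1 / (s : ℝ))⌋₊ with hb
    have h1 := hR L m₀ hm1 (by
      intro m hm
      have h2 := hm3 m hm
      rw [← hfin] at h2
      calc _ = (finrank ℚ L : ℝ) * (hC A a * ((c + d : ℕ) : ℝ) * ((1 + Nat.log 2 m : ℕ) : ℝ) +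
            N * Real.log (m + 1)) := by ring
        _ < _ := h2) n x hx0 hxne (by
      intro i
      have h2 := hxH i
      rw [hfin]
      calc canH F d (x i) ≤ _ := h2
        _ = _ := by rw [mul_assoc]) b (by
      have h2 : Q < ((b : ℝ) + 1) ^ s := by
        have h3 : Q ^ (1 / (s : ℝ)) < (b : ℝ) + 1 := Nat.lt_floor_add_one _
        have h4 : (Q ^ (1 / (s : ℝ))) ^ s = Q := by
          rw [← Real.rpow_natCast, ← Real.rpow_mul hQ0.le]
          rw [one_div, inv_mul_cancel₀ hs0.ne', Real.rpow_one]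
        rw [← h4]
        refine pow_lt_pow_left₀ h3 (by positivity) ?_
        intro h5
        rw [h5] at hs0
        simp at hs0
      have h3 : ((2 * (m₀ + 1) ^ (N * (s + 1)) : ℕ) : ℝ) < (((b + 1) ^ s : ℕ) : ℝ) := by
        push_cast
        exact h2
      exact_mod_cast h3)
    have h2 : (n : ℝ) ≤ R * b := by exact_mod_cast h1
    have h3 : (b : ℝ) ≤ Q ^ (1 / (s : ℝ)) := Nat.floor_le (by positivity)
    have h4 : Q ^ (1 / (s : ℝ)) ≤ 2 * C₂ ^ q * (finrank K L : ℝ) ^ (N + ε) := by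
      have h5 : Q ^ (1 / (s : ℝ)) = 2 ^ (1 / (s : ℝ)) * ((m₀ : ℝ) + 1) ^ q := by
        rw [hQ, Real.mul_rpow (by norm_num) (by positivity), ← Real.rpow_natCast,
          ← Real.rpow_mul (by positivity)]
        congr 2
        push_cast
        rw [hq]
        field_simp
      have h6 : (2 : ℝ) ^ (1 / (s : ℝ)) ≤ 2 := by
        calc (2 : ℝ) ^ (1 / (s : ℝ)) ≤ 2 ^ (1 : ℝ) := by
              apply Real.rpow_le_rpow_of_exponent_le (by norm_num)
              rw [div_le_one hs0]
              exact hs1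
          _ = 2 := Real.rpow_one 2
      have h7 : ((m₀ : ℝ) + 1) ^ q ≤ C₂ ^ q * (finrank K L : ℝ) ^ (N + ε) := by
        calc ((m₀ : ℝ) + 1) ^ q ≤ (C₂ * (finrank K L : ℝ) ^ (1 + e)) ^ q :=
              Real.rpow_le_rpow (by positivity) hm2 hq0
          _ = C₂ ^ q * (finrank K L : ℝ) ^ ((1 + e) * q) := by
              rw [Real.mul_rpow (by linarith) (by positivity), ← Real.rpow_mul (by positivity)]
          _ ≤ C₂ ^ q * (finrank K L : ℝ) ^ (N + ε) := by
              apply mul_le_mul_of_nonneg_left _ (by positivity)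
              exact Real.rpow_le_rpow_of_exponent_le hD1 hqe
      rw [h5]
      calc (2 : ℝ) ^ (1 / (s : ℝ)) * ((m₀ : ℝ) + 1) ^ q ≤
          2 * (C₂ ^ q * (finrank K L : ℝ) ^ (N + ε)) :=
            mul_le_mul h6 h7 (by positivity) (by norm_num)
        _ = _ := by ring
    calc (n : ℝ) ≤ R * b := h2
      _ ≤ R * (2 * C₂ ^ q * (finrank K L : ℝ) ^ (N + ε)) :=
          mul_le_mul_of_nonneg_left (h3.trans h4) (by positivity)
      _ = _ := by rw [hC₅]; ring
  have hd0 : (0 : ℝ) < d := by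
    have : 0 < d := by omega
    exact_mod_cast this
  have hld : 0 ≤ Real.log d := Real.log_nonneg (by
    have : (2 : ℝ) ≤ d := by exact_mod_cast hd
    linarith)
  have hNe : 0 < N + ε := by linarith
  set C : ℝ := C₅ + C₅ * Real.log d + 2 * k₀ + 1 / (N + ε) with hCdef
  have hC0 : 0 < C := by positivity
  refine ⟨C, hC0, fun L _ _ _ => ?_⟩
  have hfin : (finrank ℚ L : ℝ) = k₀ * finrank K L := by
    rw [hk₀]
    exact_mod_cast (finrank_mul_finrank ℚ K L).symm
  have hDpos := finrank_pos' (L := L)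
  have hD0 : 0 < finrank K L := by
    rcases Nat.eq_zero_or_pos (finrank K L) with h0 | h0
    · rw [hfin, h0] at hDpos
      simp at hDpos
    · exact h0
  have hD1 : (1 : ℝ) ≤ finrank K L := by exact_mod_cast hD0
  set D : ℝ := (finrank K L : ℝ) with hD
  have hΔ1 : 1 ≤ D ^ ((N : ℝ) + ε) := Real.one_le_rpow hD1 hNe.le
  constructor
  · intro n x hx0 hxne hxH
    refine (hcount L n x hx0 hxne fun i => (hxH i).trans ?_).trans ?_
    · apply one_div_le_one_div_of_le (by positivity)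
      apply mul_le_mul_of_nonneg_right _ (by linarith)
      rw [hCdef]
      have : 0 ≤ C₅ * Real.log d := by positivity
      have : 0 ≤ 1 / (N + ε) := by positivity
      linarith
    · apply mul_le_mul_of_nonneg_right _ (by positivity)
      rw [hCdef]
      have : 0 ≤ C₅ * Real.log d := by positivity
      have : 0 ≤ 1 / (N + ε) := by positivity
      linarith
  · intro x hx hw
    by_contra hcon
    push Not at hcon
    set Δ := D ^ ((N : ℝ) + ε) with hΔ
    have hbig := hcount L (⌊C₅ * Δ⌋₊ + 1) (fun j => (act F)^[(j : ℕ)] x)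
      (fun i => h.iter_ne_zero hx _) ?_ ?_
    · push_cast at hbig
      have := Nat.lt_floor_add_one (C₅ * Δ)
      linarith
    · intro i j hij b hb
      apply hw
      refine ⟨(j : ℕ), (i : ℕ), fun h1 => hij (Fin.ext h1.symm), b, ?_, hb⟩
      intro hb0
      simp only [hb0, zero_smul] at hb
      exact h.iter_ne_zero hx _ hb
    · intro i
      rw [h.canH_iter hd hx]
      have h1 : ((i : ℕ) : ℝ) ≤ C₅ * Δ := by
        have h2 : (i : ℕ) ≤ ⌊C₅ * Δ⌋₊ := Nat.lt_succ_iff.mp i.2
        have h3 : ((i : ℕ) : ℝ) ≤ (⌊C₅ * Δ⌋₊ : ℝ) := by exact_mod_cast h2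
        exact h3.trans (Nat.floor_le (by positivity))
      have h2 : (d : ℝ) ^ (i : ℕ) ≤ Real.exp (C₅ * Δ * Real.log d) := by
        rw [← Real.rpow_natCast, Real.rpow_def_of_pos hd0]
        apply Real.exp_le_exp.mpr
        rw [mul_comm]
        exact mul_le_mul_of_nonneg_right h1 hld
      have h3 : 1 / (2 * k₀ * D) = Real.exp (-Real.log (2 * k₀ * D)) := by
        rw [Real.exp_neg, Real.exp_log (by positivity), one_div]
      have h4 : Real.log (2 * k₀ * D) ≤ (2 * k₀ + 1 / (N + ε)) * Δ := by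
        rw [Real.log_mul (by positivity) (by positivity)]
        have h5 : Real.log (2 * k₀) ≤ 2 * k₀ * Δ := by
          have h6 := Real.log_le_sub_one_of_pos (show 0 < 2 * k₀ by positivity)
          have h7 : 2 * k₀ * 1 ≤ 2 * k₀ * Δ := mul_le_mul_of_nonneg_left hΔ1 (by positivity)
          linarith
        have h8 : Real.log D ≤ 1 / (N + ε) * Δ := by
          have := Real.log_le_rpow_div (show 0 ≤ D by linarith) hNe
          calc _ ≤ D ^ ((N : ℝ) + ε) / (N + ε) := this
            _ = _ := by rw [hΔ]; ring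
        linarith
      rw [h3]
      calc (d : ℝ) ^ (i : ℕ) * canH F d x ≤
          Real.exp (C₅ * Δ * Real.log d) * Real.exp (-(C * Δ)) :=
            mul_le_mul h2 hcon.le (h.canH_nonneg hd hx) (Real.exp_nonneg _)
        _ = Real.exp (C₅ * Δ * Real.log d - C * Δ) := by
            rw [← Real.exp_add]
            rfl
        _ ≤ Real.exp (-Real.log (2 * k₀ * D)) := by
            apply Real.exp_le_exp.mpr
            have h9 : 0 ≤ C₅ * Δ := by positivity
            have h10 : C * Δ = C₅ * Δ + C₅ * Δ * Real.log d + (2 * k₀ + 1 / (N + ε)) * Δ := by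
              rw [hCdef]
              ring
            linarith

end

end Pool.Agent.W238.Leh
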