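import Mathlib
import Pool.Agent.W238.Leh.Final

/-!
The general form, for forms with arbitrary coefficients.
-/

set_option autoImplicit false

namespace Pool.Agent.W238.Leh

open MvPolynomial NumberField Module Filter Topology

open scoped LinearAlgebra.Projectivization

/-- existence of the canonical height, the number of points of small canonical height, and the
lower bound for wandering points -/
theorem general (K : Type) [Field K] [NumberField K] (N d : ℕ) (hd : 2 ≤ d)
    (F : Fin (N + 1) → MvPolynomial (Fin (N + 1)) K) (hF : ∀ i, (F i).IsHomogeneous d)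
    (hmor : ∀ z : Fin (N + 1) → AlgebraicClosure K, (∀ i, aeval z (F i) = 0) → z = 0)
    (ε : ℝ) (hε : 0 < ε) :
    ∃ C : ℝ, 0 < C ∧ ∀ (L : Type) [Field L] [NumberField L] [Algebra K L],
      (∀ x : Fin (N + 1) → L, x ≠ 0 →
        Tendsto (fun n : ℕ => Height.logHeight ((act F)^[n] x) /
          ((finrank ℚ L : ℝ) * (d : ℝ) ^ n)) atTop (𝓝 (canH F d x))) ∧
      {P : ℙ L (Fin (N + 1) → L) | canH F d P.rep < 1 / (C * finrank K L)}.Finite ∧
      ({P : ℙ L (Fin (N + 1) → L) |
          canH F d P.rep < 1 / (C * finrank K L)}.ncard : ℝ) ≤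
        C * (finrank K L : ℝ) ^ ((N : ℝ) + ε) ∧
      (∀ x : Fin (N + 1) → L, x ≠ 0 →
        (¬ ∃ m n : ℕ, m ≠ n ∧ ∃ c : L, c ≠ 0 ∧ (act F)^[n] x = c • (act F)^[m] x) →
        Real.exp (-(C * (finrank K L : ℝ) ^ ((N : ℝ) + ε))) ≤ canH F d x) := by
  classical
  -- integral forms
  set T : Finset K := Finset.univ.biUnion fun i => (F i).support.image (F i).coeff with hT
  obtain ⟨a, ha, haT⟩ := exists_denom T
  have haK : (a : K) ≠ 0 := by
    have : a ≠ 0 := by omega
    exact_mod_cast this
  set F' : Fin (N + 1) → MvPolynomial (Fin (N + 1)) K := fun i => C (a : K) * F i with hF'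
  have hhom : ∀ i, (F' i).IsHomogeneous d := by
    intro i
    have h7 := (isHomogeneous_C (Fin (N + 1)) (a : K)).mul (hF i)
    rwa [zero_add] at h7
  have hint : ∀ i s, IsIntegral ℤ ((F' i).coeff s) := by
    intro i s
    simp only [hF', coeff_C_mul]
    by_cases hs : s ∈ (F i).support
    · apply haT
      rw [hT]
      simp only [Finset.mem_biUnion, Finset.mem_image]
      exact ⟨i, Finset.mem_univ _, s, hs, rfl⟩
    · rw [notMem_support_iff.mp hs, mul_zero]
      exact isIntegral_zero
  have hmor' : ∀ z : Fin (N + 1) → AlgebraicClosure K, (∀ i, aeval z (F' i) = 0) → z = 0 := by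
    intro z hz
    apply hmor
    intro i
    have h1 := hz i
    simp only [hF', map_mul, aeval_C] at h1
    refine (mul_eq_zero.mp h1).resolve_left ?_
    rw [map_natCast]
    have : a ≠ 0 := by omega
    exact_mod_cast this
  obtain ⟨A, b, hB, C, hC, hconcl⟩ := final_int hd hhom hint hmor' hε
  refine ⟨C, hC, fun L _ _ _ => ?_⟩
  have haL : (a : L) ≠ 0 := by
    have : a ≠ 0 := by omega
    exact_mod_cast this
  have hact : ∀ z : Fin (N + 1) → L, act F' z = (a : L) • act F z := by
    intro z
    funext i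
    simp only [act, hF', map_mul, map_natCast, Pi.smul_apply, smul_eq_mul]
  have hiter : ∀ (n : ℕ) (z : Fin (N + 1) → L), ∃ c : L, c ≠ 0 ∧
      (act F')^[n] z = c • (act F)^[n] z := by
    intro n z
    induction n with
    | zero => exact ⟨1, one_ne_zero, by simp⟩
    | succ n ih =>
      obtain ⟨c, hc, h⟩ := ih
      refine ⟨a * c ^ d, mul_ne_zero haL (pow_ne_zero _ hc), ?_⟩
      rw [Function.iterate_succ_apply', Function.iterate_succ_apply', h, hact,
        act_smul hF, smul_smul]
  have hseq : ∀ z : Fin (N + 1) → L, (fun n : ℕ => Height.logHeight ((act F')^[n] z) /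
      ((finrank ℚ L : ℝ) * (d : ℝ) ^ n)) = fun n : ℕ => Height.logHeight ((act F)^[n] z) /
      ((finrank ℚ L : ℝ) * (d : ℝ) ^ n) := by
    intro z
    funext n
    obtain ⟨c, hc, h⟩ := hiter n z
    rw [h, Height.logHeight_smul_eq_logHeight _ hc]
  have hcan : ∀ z : Fin (N + 1) → L, canH F' d z = canH F d z := by
    intro z
    unfold canH
    rw [hseq]
  obtain ⟨hcount, hwand⟩ := hconcl L
  set Δ : ℝ := C * (finrank K L : ℝ) ^ ((N : ℝ) + ε) with hΔ
  set S := {P : ℙ L (Fin (N + 1) → L) | canH F d P.rep < 1 / (C * finrank K L)} with hS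
  have hΔ0 : 0 ≤ Δ := by positivity
  -- finite subsets of the exceptional set
  have hfinset : ∀ U : Finset (ℙ L (Fin (N + 1) → L)), (U : Set (ℙ L (Fin (N + 1) → L))) ⊆ S →
      (U.card : ℝ) ≤ Δ := by
    intro U hU
    have e1 : Fin U.card ≃ U := U.equivFin.symm
    refine hcount U.card (fun i => (e1 i : ℙ L (Fin (N + 1) → L)).rep)
      (fun i => Projectivization.rep_nonzero _) ?_ ?_
    · intro i j hij c hc
      apply hij
      apply e1.injective
      apply Subtype.ext
      have hc0 : c ≠ 0 := by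
        intro h0
        rw [h0, zero_smul] at hc
        exact Projectivization.rep_nonzero _ hc
      rw [← Projectivization.mk_rep (e1 i : ℙ L (Fin (N + 1) → L)),
        ← Projectivization.mk_rep (e1 j : ℙ L (Fin (N + 1) → L)),
        Projectivization.mk_eq_mk_iff']
      exact ⟨c, hc.symm⟩
    · intro i
      rw [hcan]
      exact (hU (e1 i).2).le
  have hfin : S.Finite := by
    by_contra hinf
    obtain ⟨U, hU, hcard⟩ := Set.Infinite.exists_subset_card_eq (s := S) hinf (⌊Δ⌋₊ + 1)
    have h1 := hfinset U hU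
    rw [hcard] at h1
    push_cast at h1
    have := Nat.lt_floor_add_one Δ
    linarith
  refine ⟨?_, hfin, ?_, ?_⟩
  · intro x hx
    have h1 := hB.canH_tendsto hd hx
    rw [hcan, hseq] at h1
    exact h1
  · have h1 := hfinset hfin.toFinset (by simp)
    rwa [← Set.ncard_eq_toFinset_card S hfin] at h1
  · intro x hx hw
    rw [← hcan]
    apply hwand x hx
    rintro ⟨m, n, hmn, c, hc, h⟩
    apply hw
    obtain ⟨c₁, hc₁, h₁⟩ := hiter n x
    obtain ⟨c₂, hc₂, h₂⟩ := hiter m x
    refine ⟨m, n, hmn, c₁⁻¹ * (c * c₂), mul_ne_zero (inv_ne_zero hc₁) (mul_ne_zero hc hc₂), ?_⟩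
    rw [h₁, h₂] at h
    have h3 : (act F)^[n] x = c₁⁻¹ • (c₁ • (act F)^[n] x) := by
      rw [smul_smul, inv_mul_cancel₀ hc₁, one_smul]
    have h4 : (act F)^[n] x = (c₁⁻¹ * (c * c₂)) • (act F)^[m] x := by
      rw [h3, h, smul_smul, smul_smul]
      congr 1
      ring
    exact h4

end Pool.Agent.W238.Leh
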